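import Mathlib

/-!
# Signed sums of products of powers of two conjugate dual Gaussian integers

`XX p = p (1 + i ε)`, `YY p = conj p (1 - i ε)` in `ℤ[i][ε]`.  `Cls p l u` says that `u` is a signed sum
of the `2 ^ |l|` products of the powers `XX ^ m` or `YY ^ m`, one factor for every `m ∈ l`.  `Bad p l`:
one of these sums has no infinitesimal part.
-/

set_option autoImplicit false

open scoped DualNumber
open TrivSqZeroExt

noncomputable section

namespace Pool.Agent.FSS

/-- The unit `i`. -/
def io : GaussianInt := ⟨0, 1⟩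

/-- `p (1 + i ε)`. -/
def XX (p : GaussianInt) : GaussianInt[ε] := inl p + inr (io * p)

/-- `conj p (1 - i ε)`. -/
def YY (p : GaussianInt) : GaussianInt[ε] := inl (star p) + inr (-(io * star p))

/-- Complex conjugation of both parts. -/
def cj (u : GaussianInt[ε]) : GaussianInt[ε] := inl (star u.fst) + inr (star u.snd)

/-- Signed sums of products of powers. -/
inductive Cls (p : GaussianInt) : List ℕ → GaussianInt[ε] → Prop
  | pos : Cls p [] 1
  | neg : Cls p [] (-1)
  | cons (m : ℕ) (l : List ℕ) (u v : GaussianInt[ε]) : Cls p l u → Cls p l v →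
      Cls p (m :: l) (XX p ^ m * u + YY p ^ m * v)

/-- A signed sum without infinitesimal part. -/
def Bad (p : GaussianInt) (l : List ℕ) : Prop := ∃ u, Cls p l u ∧ u.snd = 0

lemma fst_XX (p : GaussianInt) : (XX p).fst = p := by simp [XX]
lemma snd_XX (p : GaussianInt) : (XX p).snd = io * p := by simp [XX]
lemma fst_YY (p : GaussianInt) : (YY p).fst = star p := by simp [YY]
lemma snd_YY (p : GaussianInt) : (YY p).snd = -(io * star p) := by simp [YY]
lemma fst_cj (u : GaussianInt[ε]) : (cj u).fst = star u.fst := by simp [cj]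
lemma snd_cj (u : GaussianInt[ε]) : (cj u).snd = star u.snd := by simp [cj]

lemma star_io : star io = -io := by
  ext <;> simp [io]

lemma io_sq : io * io = -1 := by
  ext <;> simp [io]

lemma fst_XX_pow (p : GaussianInt) (m : ℕ) : (XX p ^ m).fst = p ^ m := by
  induction m with
  | zero => simp
  | succ m ih => rw [pow_succ, pow_succ, fst_mul, ih, fst_XX]

lemma snd_XX_pow (p : GaussianInt) (m : ℕ) :
    (XX p ^ m).snd = (m : GaussianInt) * (io * p ^ m) := by
  induction m with
  | zero => simp
  | succ m ih =>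
    rw [pow_succ, DualNumber.snd_mul, ih, fst_XX, snd_XX, fst_XX_pow, pow_succ]
    push_cast
    ring

lemma fst_YY_pow (p : GaussianInt) (m : ℕ) : (YY p ^ m).fst = star p ^ m := by
  induction m with
  | zero => simp
  | succ m ih => rw [pow_succ, pow_succ, fst_mul, ih, fst_YY]

lemma snd_YY_pow (p : GaussianInt) (m : ℕ) :
    (YY p ^ m).snd = -((m : GaussianInt) * (io * star p ^ m)) := by
  induction m with
  | zero => simp
  | succ m ih =>
    rw [pow_succ, DualNumber.snd_mul, ih, fst_YY, snd_YY, fst_YY_pow, pow_succ]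
    push_cast
    ring

lemma cj_mul (u v : GaussianInt[ε]) : cj (u * v) = cj u * cj v := by
  refine TrivSqZeroExt.ext ?_ ?_
  · rw [fst_cj, fst_mul, fst_mul, fst_cj, fst_cj, star_mul']
  · rw [snd_cj, DualNumber.snd_mul, DualNumber.snd_mul, fst_cj, fst_cj, snd_cj, snd_cj, star_add,
      star_mul', star_mul']

lemma cj_add (u v : GaussianInt[ε]) : cj (u + v) = cj u + cj v := by
  refine TrivSqZeroExt.ext ?_ ?_
  · rw [fst_cj, fst_add, fst_add, fst_cj, fst_cj, star_add]
  · rw [snd_cj, snd_add, snd_add, snd_cj, snd_cj, star_add]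

lemma cj_one : cj 1 = 1 := by
  refine TrivSqZeroExt.ext ?_ ?_
  · simp [fst_cj]
  · simp [snd_cj]

lemma cj_neg (u : GaussianInt[ε]) : cj (-u) = -cj u := by
  refine TrivSqZeroExt.ext ?_ ?_
  · simp [fst_cj]
  · simp [snd_cj]

lemma cj_XX_pow (p : GaussianInt) (m : ℕ) : cj (XX p ^ m) = YY p ^ m := by
  refine TrivSqZeroExt.ext ?_ ?_
  · rw [fst_cj, fst_XX_pow, fst_YY_pow, star_pow]
  · rw [snd_cj, snd_XX_pow, snd_YY_pow, star_mul', star_mul', star_pow, star_io, star_natCast]
    ring

lemma cj_YY_pow (p : GaussianInt) (m : ℕ) : cj (YY p ^ m) = XX p ^ m := by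
  refine TrivSqZeroExt.ext ?_ ?_
  · rw [fst_cj, fst_XX_pow, fst_YY_pow, star_pow, star_star]
  · rw [snd_cj, snd_XX_pow, snd_YY_pow, star_neg, star_mul', star_mul', star_pow, star_star,
      star_io, star_natCast]
    ring

namespace Cls

variable {p : GaussianInt}

lemma neg' {l : List ℕ} {u : GaussianInt[ε]} (h : Cls p l u) : Cls p l (-u) := by
  induction h with
  | pos => exact Cls.neg
  | neg => rw [neg_neg]; exact Cls.pos
  | cons m l u v _ _ hu hv =>
    have := Cls.cons m l (-u) (-v) hu hv
    have e : XX p ^ m * -u + YY p ^ m * -v = -(XX p ^ m * u + YY p ^ m * v) := by ring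
    rwa [e] at this

/-- The other order of the two summands. -/
lemma cons' {m : ℕ} {l : List ℕ} {u v : GaussianInt[ε]} (hu : Cls p l u) (hv : Cls p l v) :
    Cls p (m :: l) (YY p ^ m * u + XX p ^ m * v) := by
  rw [add_comm]
  exact Cls.cons m l v u hv hu

lemma mul {l l' : List ℕ} {u v : GaussianInt[ε]} (hu : Cls p l u) (hv : Cls p l' v) :
    Cls p (l ++ l') (u * v) := by
  induction hu with
  | pos => rw [one_mul]; exact hv
  | neg => rw [neg_one_mul]; exact hv.neg'
  | cons m l u1 u2 _ _ h1 h2 =>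
    have := Cls.cons m (l ++ l') _ _ h1 h2
    have e : XX p ^ m * (u1 * v) + YY p ^ m * (u2 * v) = (XX p ^ m * u1 + YY p ^ m * u2) * v := by
      ring
    rw [e] at this
    exact this

lemma conj {l : List ℕ} {u : GaussianInt[ε]} (h : Cls p l u) : Cls p l (cj u) := by
  induction h with
  | pos => rw [cj_one]; exact Cls.pos
  | neg => rw [cj_neg, cj_one]; exact Cls.neg
  | cons m l u v _ _ hu hv =>
    rw [cj_add, cj_mul, cj_mul, cj_XX_pow, cj_YY_pow]
    exact cons' hu hv

/-- Freezing the large exponents. -/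
lemma freeze (M : ℕ) {l : List ℕ} {u : GaussianInt[ε]} (h : Cls p l u) :
    ∃ v z, Cls p (l.filter (· < M)) v ∧
      u = XX p ^ (l.filter (M ≤ ·)).sum * v + inl (star p ^ M) * z := by
  induction h with
  | pos => exact ⟨1, 0, Cls.pos, by simp⟩
  | neg => exact ⟨-1, 0, Cls.neg, by simp⟩
  | cons m l u1 u2 _ _ h1 h2 =>
    obtain ⟨v1, z1, hv1, e1⟩ := h1
    obtain ⟨v2, z2, hv2, e2⟩ := h2
    by_cases hm : m < M
    · have f1 : (m :: l).filter (· < M) = m :: l.filter (· < M) := by
        rw [List.filter_cons_of_pos (by simpa using hm)]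
      have f2 : (m :: l).filter (M ≤ ·) = l.filter (M ≤ ·) := by
        rw [List.filter_cons_of_neg (by simpa using hm)]
      refine ⟨XX p ^ m * v1 + YY p ^ m * v2, XX p ^ m * z1 + YY p ^ m * z2, ?_, ?_⟩
      · rw [f1]
        exact Cls.cons m _ v1 v2 hv1 hv2
      · rw [f2, e1, e2]
        ring
    · have f1 : (m :: l).filter (· < M) = l.filter (· < M) := by
        rw [List.filter_cons_of_neg (by simpa using hm)]
      have f2 : (m :: l).filter (M ≤ ·) = m :: l.filter (M ≤ ·) := by
        rw [List.filter_cons_of_pos (by simpa using hm)]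
      obtain ⟨y, hy⟩ : ∃ y, YY p ^ m = inl (star p ^ M) * y := by
        obtain ⟨k, hk⟩ : ∃ k, m = M + k := ⟨m - M, by omega⟩
        refine ⟨inl (star p ^ k) + inr (-((m : GaussianInt) * (io * star p ^ k))), ?_⟩
        refine TrivSqZeroExt.ext ?_ ?_
        · rw [fst_YY_pow, hk, pow_add]
          simp
        · rw [snd_YY_pow, DualNumber.snd_mul]
          simp only [fst_inl, snd_inl, fst_add, snd_add, fst_inr, snd_inr]
          rw [hk, pow_add]
          ring
      refine ⟨v1, XX p ^ m * z1 + y * u2, ?_, ?_⟩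
      · rw [f1]
        exact hv1
      · rw [f2, List.sum_cons, pow_add, e1, hy]
        ring

end Cls

end Pool.Agent.FSS
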