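import Mathlib

/-!
# The combinatorial part: gaps between exponents
-/

set_option autoImplicit false

namespace Pool.Agent.FSS

namespace Comb

/-- The thresholds. -/
def th (K g e : ℕ) : ℕ → ℕ
  | 0 => e
  | j + 1 => K * th K g e j + g

lemma th_le (K g e j : ℕ) : th K g e j ≤ (K + 1) ^ j * (e + g) := by
  induction j with
  | zero => simp [th]
  | succ j ih =>
    have h1 : 1 ≤ (K + 1) ^ j := Nat.one_le_pow _ _ (by omega)
    have h2 : g ≤ (K + 1) ^ j * (e + g) := by nlinarith
    have h3 : K * th K g e j ≤ K * ((K + 1) ^ j * (e + g)) := Nat.mul_le_mul_left _ ih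
    calc th K g e (j + 1) = K * th K g e j + g := rfl
      _ ≤ K * ((K + 1) ^ j * (e + g)) + (K + 1) ^ j * (e + g) := add_le_add h3 h2
      _ = (K + 1) ^ (j + 1) * (e + g) := by ring

lemma th_lt (K g e : ℕ) (hK : 1 ≤ K) (hg : 1 ≤ g) (j : ℕ) :
    th K g e j < th K g e (j + 1) := by
  have : th K g e (j + 1) = K * th K g e j + g := rfl
  rw [this]
  nlinarith [Nat.zero_le (th K g e j)]

lemma th_mono (K g e : ℕ) (hK : 1 ≤ K) (hg : 1 ≤ g) : Monotone (th K g e) :=
  monotone_nat_of_le_succ fun j => (th_lt K g e hK hg j).le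

lemma countP_lt {l : List ℕ} {x y m : ℕ} (hxy : x ≤ y) (hm : m ∈ l) (h1 : x < m) (h2 : m ≤ y) :
    l.countP (· ≤ x) + 1 ≤ l.countP (· ≤ y) := by
  induction l with
  | nil => simp at hm
  | cons a l ih =>
    have hmono : l.countP (· ≤ x) ≤ l.countP (· ≤ y) :=
      List.countP_mono_left fun b _ hb => by
        simp only [decide_eq_true_eq] at hb ⊢
        omega
    rcases List.mem_cons.1 hm with rfl | hm'
    · rw [List.countP_cons_of_neg (by simpa using h1), List.countP_cons_of_pos (by simpa using h2)]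
      omega
    · have := ih hm'
      by_cases hax : a ≤ x
      · rw [List.countP_cons_of_pos (by simpa using hax),
          List.countP_cons_of_pos (by simpa using hax.trans hxy)]
        omega
      · rw [List.countP_cons_of_neg (by simpa using hax)]
        refine this.trans ?_
        rw [List.countP_cons]
        omega

/-- Either there is an empty window with something above it, or the small entries are many. -/
lemma windows (l : List ℕ) (K g e : ℕ) (hK : 1 ≤ K) (hg : 1 ≤ g) (he : e ∈ l) (J : ℕ) :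
    (∃ j < J, (∀ m ∈ l, m < th K g e (j + 1) → m ≤ th K g e j) ∧
      ∃ m ∈ l, th K g e (j + 1) ≤ m) ∨
    min (J + 1) l.length ≤ l.countP (· ≤ th K g e J) := by
  induction J with
  | zero =>
    right
    have h1 : 0 < l.countP (· ≤ th K g e 0) := by
      rw [List.countP_pos_iff]
      exact ⟨e, he, by simp [th]⟩
    omega
  | succ J ih =>
    rcases ih with ⟨j, hj, h⟩ | h
    · exact Or.inl ⟨j, by omega, h⟩
    · have hlt := th_lt K g e hK hg J
      have hmono : l.countP (· ≤ th K g e J) ≤ l.countP (· ≤ th K g e (J + 1)) :=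
        List.countP_mono_left fun b _ hb => by
          simp only [decide_eq_true_eq] at hb ⊢
          omega
      by_cases hall : ∀ m ∈ l, m ≤ th K g e J
      · right
        have h2 : l.countP (· ≤ th K g e J) = l.length := by
          rw [List.countP_eq_length]
          intro a ha
          simpa using hall a ha
        omega
      · push Not at hall
        obtain ⟨m, hm, hmt⟩ := hall
        by_cases hw : ∃ m' ∈ l, th K g e J < m' ∧ m' < th K g e (J + 1)
        · right
          obtain ⟨m', hm', h1, h2⟩ := hw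
          have := countP_lt hlt.le hm' h1 h2.le
          omega
        · left
          push Not at hw
          refine ⟨J, by omega, ?_, m, hm, hw m hm hmt⟩
          intro m' hm' h1
          by_contra h2
          push Not at h2
          have := hw m' hm' h2
          omega

lemma exists_big (A N : ℕ) (hN : 2 ≤ N) : ∃ C : ℕ, ∀ y, C ≤ y → A * y ^ 3 < N ^ (y - 1) := by
  have h := tendsto_pow_const_div_const_pow_of_one_lt 3 (one_lt_two : (1 : ℝ) < 2)
  have h2 : (0 : ℝ) < 1 / (2 * (A + 1)) := by positivity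
  have h3 := (h.eventually (gt_mem_nhds h2)).exists_forall_of_atTop
  obtain ⟨C, hC⟩ := h3
  refine ⟨C + 1, fun y hy => ?_⟩
  have h4 := hC y (by omega)
  rw [div_lt_div_iff₀ (by positivity) (by positivity)] at h4
  have h5 : (2 : ℝ) ^ y = 2 * 2 ^ (y - 1) := by
    rw [← pow_succ']
    congr 1
    omega
  have h6 : ((A + 1) * y ^ 3 : ℝ) < 2 ^ (y - 1) := by
    rw [h5] at h4
    nlinarith
  have h7 : (A + 1) * y ^ 3 < 2 ^ (y - 1) := by exact_mod_cast h6
  have h8 : A * y ^ 3 ≤ (A + 1) * y ^ 3 := Nat.mul_le_mul_right _ (by omega)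
  have h9 : 2 ^ (y - 1) ≤ N ^ (y - 1) := Nat.pow_le_pow_left hN _
  omega

lemma exists_min (l : List ℕ) (hl : l ≠ []) : ∃ e ∈ l, ∀ m ∈ l, e ≤ m := by
  have hne : l.toFinset.Nonempty := by
    rw [List.toFinset_nonempty_iff]
    exact hl
  refine ⟨l.toFinset.min' hne, ?_, ?_⟩
  · have := l.toFinset.min'_mem hne
    rwa [List.mem_toFinset] at this
  · intro m hm
    exact Finset.min'_le _ _ (List.mem_toFinset.2 hm)

lemma sum_le (l : List ℕ) (x : ℕ) (h : ∀ m ∈ l, m ≤ x) : l.sum ≤ l.length * x := by
  have := List.sum_le_card_nsmul l x h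
  simpa using this

/-- The hypotheses on the predicate. -/
structure Hyp (N : ℕ) (B : List ℕ → Prop) : Prop where
  two : 2 ≤ N
  dvd : ∀ l M, B l → (∀ m ∈ l, M ≤ m) → N ^ M ∣ l.sum
  step : ∀ l M, B l → 4 ^ (l.filter (· < M)).length * l.sum ^ 2 * N ^ (l.filter (· < M)).sum <
    N ^ M → B (l.filter (· < M) ++ l.filter (· < M))

variable {N : ℕ} {B : List ℕ → Prop}

/-- The common part: data of a list with `B`. -/
lemma Hyp.data (h : Hyp N B) {l : List ℕ} (hB : B l) (hl : l ≠ []) (h1 : ∀ m ∈ l, 1 ≤ m) (K : ℕ) :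
    ∃ e g, e ∈ l ∧ (∀ m ∈ l, e ≤ m) ∧ 1 ≤ g ∧ N ^ e ≤ l.sum ∧ N ^ (g - 1) ≤ 4 ^ K * l.sum ^ 2 ∧
      4 ^ K * l.sum ^ 2 < N ^ g := by
  obtain ⟨e, he, hmin⟩ := exists_min l hl
  have hpos : 0 < l.sum := by
    have := List.single_le_sum (l := l) (fun x _ => Nat.zero_le x) e he
    have := h1 e he
    omega
  have hd := Nat.le_of_dvd hpos (h.dvd l e hB hmin)
  refine ⟨e, Nat.log N (4 ^ K * l.sum ^ 2) + 1, he, hmin, by omega, hd, ?_, ?_⟩
  · rw [Nat.add_sub_cancel]
    exact Nat.pow_log_le_self _ (by positivity)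
  · exact Nat.lt_pow_succ_log_self h.two _

/-- The step at an empty window. -/
lemma Hyp.at_window (h : Hyp N B) {l : List ℕ} (hB : B l) {K g x M : ℕ}
    (hg : 4 ^ K * l.sum ^ 2 < N ^ g) (hM : M = K * x + g)
    (hw : ∀ m ∈ l, m < M → m ≤ x) (hlen : (l.filter (· < M)).length ≤ K) :
    B (l.filter (· < M) ++ l.filter (· < M)) := by
  apply h.step l M hB
  have hs : (l.filter (· < M)).sum ≤ K * x := by
    refine (sum_le _ x ?_).trans (Nat.mul_le_mul_right _ hlen)
    intro m hm
    rw [List.mem_filter] at hm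
    exact hw m hm.1 (by simpa using hm.2)
  have hN : 1 ≤ N := by have := h.two; omega
  calc 4 ^ (l.filter (· < M)).length * l.sum ^ 2 * N ^ (l.filter (· < M)).sum
      ≤ 4 ^ K * l.sum ^ 2 * N ^ (K * x) := by
        refine Nat.mul_le_mul (Nat.mul_le_mul_right _ (Nat.pow_le_pow_right (by norm_num) hlen))
          (Nat.pow_le_pow_right hN hs)
    _ < N ^ g * N ^ (K * x) := by
        refine Nat.mul_lt_mul_of_pos_right hg (Nat.pow_pos (by omega))
    _ = N ^ M := by rw [hM, ← pow_add]; congr 1; omega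

lemma Hyp.core (h : Hyp N B) : ∀ d K : ℕ, ∃ C : ℕ, ∀ l : List ℕ, l ≠ [] → l.length ≤ K →
    l.toFinset.card ≤ d → (∀ m ∈ l, C ≤ m) → ¬ B l := by
  intro d
  induction d with
  | zero =>
    intro K
    refine ⟨0, fun l hl _ hd _ _ => ?_⟩
    have : l.toFinset = ∅ := Finset.card_eq_zero.1 (by omega)
    rw [List.toFinset_eq_empty_iff] at this
    exact hl this
  | succ d ih =>
    intro K
    obtain ⟨C0, hC0⟩ := ih (2 * K)
    obtain ⟨C1, hC1⟩ := exists_big (4 ^ K * (K * (K + 1) ^ K) ^ 3) N h.two
    refine ⟨max (max C0 C1) 1, fun l hl hlen hd hC hB => ?_⟩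
    have hK : 1 ≤ K := by
      have : 0 < l.length := List.length_pos_iff.2 hl
      omega
    obtain ⟨e, g, he, hmin, hg, hNe, hNg, hg2⟩ := h.data hB hl
      (fun m hm => (le_max_right _ _).trans (hC m hm)) K
    rcases windows l K g e hK hg he K with ⟨j, hj, hw, m, hm, hmM⟩ | hc
    · set M := th K g e (j + 1) with hMdef
      have hfl : (l.filter (· < M)).length ≤ K := (List.length_filter_le _ _).trans hlen
      have hB2 := h.at_window hB hg2 (x := th K g e j) (M := M) rfl hw hfl
      set T := l.filter (· < M) with hT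
      have heT : e ∈ T := by
        rw [hT, List.mem_filter]
        refine ⟨he, ?_⟩
        have h1 : th K g e 0 ≤ th K g e j := th_mono K g e hK hg (Nat.zero_le j)
        have h2 := th_lt K g e hK hg j
        have h3 : th K g e 0 = e := rfl
        simp only [decide_eq_true_eq]
        omega
      refine hC0 (T ++ T) ?_ ?_ ?_ ?_ hB2
      · intro h0
        rw [List.append_eq_nil_iff] at h0
        rw [h0.1] at heT
        simp at heT
      · rw [List.length_append]
        omega
      · have h1 : (T ++ T).toFinset ⊂ l.toFinset := by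
          rw [Finset.ssubset_iff_of_subset]
          · refine ⟨m, List.mem_toFinset.2 hm, ?_⟩
            rw [List.mem_toFinset, List.mem_append, or_self, hT, List.mem_filter]
            rintro ⟨-, h2⟩
            simp only [decide_eq_true_eq] at h2
            omega
          · intro a ha
            rw [List.mem_toFinset, List.mem_append, or_self, hT, List.mem_filter] at ha
            exact List.mem_toFinset.2 ha.1
        have := Finset.card_lt_card h1
        omega
      · intro a ha
        rw [List.mem_append, or_self, hT, List.mem_filter] at ha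
        have := hC a ha.1
        omega
    · have hall : ∀ m ∈ l, m ≤ th K g e K := by
        have h1 : l.countP (· ≤ th K g e K) = l.length := by
          have := List.countP_le_length (p := (fun x => decide (x ≤ th K g e K))) (l := l)
          omega
        rw [List.countP_eq_length] at h1
        intro m hm
        simpa using h1 m hm
      have hn : l.sum ≤ K * (K + 1) ^ K * (e + g) := by
        refine (sum_le l _ hall).trans ?_
        refine (Nat.mul_le_mul hlen (th_le K g e K)).trans ?_
        rw [mul_assoc]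
      have hy := hC1 (e + g) (by have := hC e he; omega)
      have h1 : N ^ (e + g - 1) ≤ 4 ^ K * l.sum ^ 3 := by
        have h2 : e + g - 1 = e + (g - 1) := by omega
        rw [h2, pow_add]
        calc N ^ e * N ^ (g - 1) ≤ l.sum * (4 ^ K * l.sum ^ 2) := Nat.mul_le_mul hNe hNg
          _ = 4 ^ K * l.sum ^ 3 := by ring
      have h2 : 4 ^ K * l.sum ^ 3 ≤ 4 ^ K * (K * (K + 1) ^ K * (e + g)) ^ 3 :=
        Nat.mul_le_mul_left _ (Nat.pow_le_pow_left hn 3)
      have h3 : 4 ^ K * (K * (K + 1) ^ K * (e + g)) ^ 3 =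
          4 ^ K * (K * (K + 1) ^ K) ^ 3 * (e + g) ^ 3 := by ring
      omega

lemma Hyp.core' (h : Hyp N B) (K : ℕ) : ∃ C : ℕ, ∀ l : List ℕ, l ≠ [] → l.length ≤ K →
    (∀ m ∈ l, C ≤ m) → ¬ B l := by
  obtain ⟨C, hC⟩ := h.core K K
  exact ⟨C, fun l h1 h2 h3 => hC l h1 h2 ((List.toFinset_card_le l).trans h2) h3⟩

/-- A bound for the thresholds. -/
lemma log_bound {e g n K : ℕ} (h2 : 2 ≤ N) (hg : 1 ≤ g) (he : 1 ≤ e) (hNe : N ^ e ≤ n)
    (hNg : N ^ (g - 1) ≤ 4 ^ K * n ^ 2) :
    ((e + g : ℕ) : ℝ) ≤ (4 * K + 8) * Real.log n := by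
  have hn2 : 2 ≤ n := by
    calc 2 ≤ N := h2
      _ = N ^ 1 := (pow_one N).symm
      _ ≤ N ^ e := Nat.pow_le_pow_right (by omega) he
      _ ≤ n := hNe
  have hlog2 : (1 : ℝ) / 2 < Real.log 2 := by
    have := Real.log_two_gt_d9
    linarith
  have hlogN : Real.log 2 ≤ Real.log N :=
    Real.log_le_log (by norm_num) (by exact_mod_cast h2)
  have hlogn : Real.log 2 ≤ Real.log n :=
    Real.log_le_log (by norm_num) (by exact_mod_cast hn2)
  have hn0 : (0 : ℝ) < n := by exact_mod_cast (by omega : 0 < n)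
  have hN0 : (0 : ℝ) < N := by exact_mod_cast (by omega : 0 < N)
  have h3 : (e : ℝ) * Real.log N ≤ Real.log n := by
    rw [← Real.log_pow]
    exact Real.log_le_log (by positivity) (by exact_mod_cast hNe)
  have h4 : ((g - 1 : ℕ) : ℝ) * Real.log N ≤ K * Real.log 4 + 2 * Real.log n := by
    rw [← Real.log_pow]
    have h5 : Real.log ((4 : ℝ) ^ K * (n : ℝ) ^ 2) = K * Real.log 4 + 2 * Real.log n := by
      rw [Real.log_mul (by positivity) (by positivity), Real.log_pow, Real.log_pow]
      norm_num
    rw [← h5]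
    exact Real.log_le_log (by positivity) (by exact_mod_cast hNg)
  have h5 : Real.log 4 = 2 * Real.log 2 := by
    rw [show (4 : ℝ) = 2 ^ 2 by norm_num, Real.log_pow]
    norm_num
  have h6 : ((g - 1 : ℕ) : ℝ) = g - 1 := by
    rw [Nat.cast_sub hg]
    norm_num
  rw [h6, h5] at h4
  have hK : (0 : ℝ) ≤ K := by positivity
  have he0 : (0 : ℝ) ≤ e := by positivity
  have hg0 : (0 : ℝ) ≤ (g : ℝ) - 1 := by
    have : (1 : ℝ) ≤ g := by exact_mod_cast hg
    linarith
  have h7 : (e : ℝ) * (1 / 2) ≤ Real.log n := by nlinarith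
  have h8 : ((g : ℝ) - 1) * (1 / 2) ≤ K * (2 * Real.log 2) + 2 * Real.log n := by nlinarith
  have h9 : (K : ℝ) * (2 * Real.log 2) ≤ K * (2 * Real.log n) := by nlinarith
  push_cast
  nlinarith

theorem Hyp.main1 (h : Hyp N B) (K : ℕ) (hK : 1 ≤ K) : ∃ C : ℕ, 1 ≤ C ∧ ∀ l : List ℕ, l ≠ [] →
    (∀ m ∈ l, C ≤ m) → l.countP (fun m : ℕ => decide ((m : ℝ) < C * Real.log l.sum)) ≤ K → ¬ B l := by
  classical
  obtain ⟨C0, hC0⟩ := h.core' K
  obtain ⟨C1, hC1⟩ := h.core' (2 * K)
  set D := (K + 1) ^ K * (4 * K + 8) with hD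
  refine ⟨max (max C0 C1) (D + 1), by omega, fun l hl hC hcount hB => ?_⟩
  set C := max (max C0 C1) (D + 1) with hCdef
  have hCD : D < C := by omega
  obtain ⟨e, g, he, hmin, hg, hNe, hNg, hg2⟩ := h.data hB hl
    (fun m hm => by have := hC m hm; omega) K
  have he1 : 1 ≤ e := by have := hC e he; omega
  have hlb := log_bound h.two hg he1 hNe hNg
  have hlogpos : 0 < Real.log l.sum := by
    have h1 : (0 : ℝ) < ((e + g : ℕ) : ℝ) := by exact_mod_cast (by omega : 0 < e + g)
    have h2 : (0 : ℝ) < 4 * K + 8 := by positivity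
    by_contra hcon
    push Not at hcon
    nlinarith
  have hth : ∀ j ≤ K, (th K g e j : ℝ) < C * Real.log l.sum := by
    intro j hj
    have h1 : th K g e j ≤ th K g e K := th_mono K g e hK hg hj
    have h2 := th_le K g e K
    have h3 : (th K g e j : ℝ) ≤ ((K + 1) ^ K * (e + g) : ℕ) := by exact_mod_cast h1.trans h2
    have h4 : (((K + 1) ^ K * (e + g) : ℕ) : ℝ) ≤ D * Real.log l.sum := by
      rw [hD]
      push_cast
      have h5 : (0 : ℝ) ≤ ((K : ℝ) + 1) ^ K := by positivity
      have h6 := mul_le_mul_of_nonneg_left hlb h5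
      push_cast at h6
      calc ((K : ℝ) + 1) ^ K * (e + g) ≤ ((K : ℝ) + 1) ^ K * ((4 * K + 8) * Real.log _) := h6
        _ = _ := by ring
    have h5 : (D : ℝ) < C := by exact_mod_cast hCD
    nlinarith
  have hshort : ∀ x : ℕ, (x : ℝ) < C * Real.log l.sum →
      l.countP (· ≤ x) ≤ K := by
    intro x hx
    refine le_trans ?_ hcount
    refine List.countP_mono_left fun m _ hm => ?_
    simp only [decide_eq_true_eq] at hm ⊢
    have : (m : ℝ) ≤ x := by exact_mod_cast hm
    linarith
  rcases windows l K g e hK hg he K with ⟨j, hj, hw, m, hm, hmM⟩ | hc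
  · set M := th K g e (j + 1) with hMdef
    have hfl : (l.filter (· < M)).length ≤ K := by
      have h1 := hshort (th K g e j) (hth j (by omega))
      rw [← List.countP_eq_length_filter]
      refine le_trans ?_ h1
      refine List.countP_mono_left fun a ha h2 => ?_
      simp only [decide_eq_true_eq] at h2 ⊢
      exact hw a ha h2
    have hB2 := h.at_window hB hg2 (x := th K g e j) (M := M) rfl hw hfl
    set T := l.filter (· < M) with hT
    have heT : e ∈ T := by
      rw [hT, List.mem_filter]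
      refine ⟨he, ?_⟩
      have h1 : th K g e 0 ≤ th K g e j := th_mono K g e hK hg (Nat.zero_le j)
      have h2 := th_lt K g e hK hg j
      have h3 : th K g e 0 = e := rfl
      simp only [decide_eq_true_eq]
      omega
    refine hC1 (T ++ T) ?_ ?_ ?_ hB2
    · intro h0
      rw [List.append_eq_nil_iff] at h0
      rw [h0.1] at heT
      simp at heT
    · rw [List.length_append]
      omega
    · intro a ha
      rw [List.mem_append, or_self, hT, List.mem_filter] at ha
      have := hC a ha.1
      omega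
  · have h1 := hshort (th K g e K) (hth K le_rfl)
    refine hC0 l hl (by omega) ?_ hB
    intro a ha
    have := hC a ha
    omega

end Comb

end Pool.Agent.FSS
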