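import Pool.Agent.FSS.Free

/-!
# Free groups of isometries of `ℚ³`: elements with few short syllables have no fixed point
-/

set_option autoImplicit false

open scoped DualNumber

noncomputable section

namespace Pool.Agent.FSS

/-- The absolute values of the exponents. -/
def lens (l : List (ℤ × ℤ)) : List ℕ := l.flatMap fun q => [q.1.natAbs, q.2.natAbs]

/-- The number of the exponents of absolute value less than `C log n`, `n` the sum of all absolute
values. -/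
def short (C : ℕ) (l : List (ℤ × ℤ)) : ℕ :=
  (lens l).countP fun m : ℕ => decide ((m : ℝ) < C * Real.log (lens l).sum)

lemma lens_eq (l : List (ℤ × ℤ)) : (flat l).map Int.natAbs = lens l := by
  unfold flat lens
  induction l with
  | nil => rfl
  | cons q l ih => simp [ih]

lemma mem_lens {l : List (ℤ × ℤ)} {m : ℕ} :
    m ∈ lens l ↔ ∃ q ∈ l, m = q.1.natAbs ∨ m = q.2.natAbs := by
  simp [lens, List.mem_flatMap]

lemma lens_ne {l : List (ℤ × ℤ)} (hl : l ≠ []) : lens l ≠ [] := by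
  obtain ⟨q, t, rfl⟩ := List.exists_cons_of_ne_nil hl
  simp [lens]

lemma hyp5 : Comb.Hyp 5 (Bad p5) where
  two := by norm_num
  dvd l M hB hM := hB.dvd p5_norm p5_coprime M hM
  step l M hB hlt := hB.step p5_norm p5_coprime M hlt

/-- The first screw motion. -/
def aI : Isom3 := ⟨aP, aP_mem⟩

/-- The second screw motion. -/
def bI : Isom3 := ⟨bP, bP_mem⟩

lemma coe_wd (l : List (ℤ × ℤ)) : ((wd aI bI l : Isom3) : Equiv.Perm (Fin 3 → ℚ)) = wd aP bP l := by
  induction l with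
  | nil => rfl
  | cons q l ih =>
    rw [wd_cons, wd_cons, ← ih]
    rfl

/-- Divisibility. -/
theorem dvd_of_fixed (m : ℕ) (l : List (ℤ × ℤ)) (hl : l ≠ [])
    (hm : ∀ q ∈ l, (m : ℤ) ≤ |q.1| ∧ (m : ℤ) ≤ |q.2|) (z : Fin 3 → ℚ)
    (hz : wd aP bP l z = z) : 5 ^ m ∣ (lens l).sum := by
  have hB := bad_of_fixed hl hz
  rw [lens_eq] at hB
  refine hB.dvd p5_norm p5_coprime m ?_
  intro x hx
  rw [mem_lens] at hx
  obtain ⟨q, hq, hx⟩ := hx
  have := hm q hq
  rcases hx with rfl | rfl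
  · have h1 := this.1
    rw [Int.abs_eq_natAbs] at h1
    exact_mod_cast h1
  · have h1 := this.2
    rw [Int.abs_eq_natAbs] at h1
    exact_mod_cast h1

theorem few_short (K : ℕ) : ∃ C : ℕ, 1 ≤ C ∧ ∀ l : List (ℤ × ℤ), l ≠ [] →
    (∀ q ∈ l, (C : ℤ) ≤ |q.1| ∧ (C : ℤ) ≤ |q.2|) → short C l ≤ K →
    ∀ z : Fin 3 → ℚ, wd aP bP l z ≠ z := by
  obtain ⟨C, hC1, hC⟩ := hyp5.main1 (K + 1) (by omega)
  refine ⟨C, hC1, fun l hl hlC hs z hz => ?_⟩
  have hB := bad_of_fixed hl hz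
  rw [lens_eq] at hB
  refine hC (lens l) (lens_ne hl) ?_ ?_ hB
  · intro x hx
    rw [mem_lens] at hx
    obtain ⟨q, hq, hx⟩ := hx
    have := hlC q hq
    rcases hx with rfl | rfl
    · have h1 := this.1
      rw [Int.abs_eq_natAbs] at h1
      exact_mod_cast h1
    · have h1 := this.2
      rw [Int.abs_eq_natAbs] at h1
      exact_mod_cast h1
  · unfold short at hs
    omega

/-- Multiplying all exponents by `C`. -/
def scale (C : ℕ) (l : List (ℤ × ℤ)) : List (ℤ × ℤ) := l.map fun q => ((C : ℤ) * q.1, (C : ℤ) * q.2)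

lemma wd_scale {G : Type} [Group G] (a b : G) (C : ℕ) (l : List (ℤ × ℤ)) :
    wd (a ^ C) (b ^ C) l = wd a b (scale C l) := by
  induction l with
  | nil => rfl
  | cons q l ih =>
    have h : scale C (q :: l) = ((C : ℤ) * q.1, (C : ℤ) * q.2) :: scale C l := rfl
    rw [h, wd_cons, wd_cons, ih, zpow_mul, zpow_mul, zpow_natCast, zpow_natCast]

lemma lens_scale (C : ℕ) (l : List (ℤ × ℤ)) : lens (scale C l) = (lens l).map (C * ·) := by
  unfold lens scale
  induction l with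
  | nil => rfl
  | cons q l ih => simp [ih, Int.natAbs_mul]

/-- The homomorphism given by the powers. -/
def ph (C : ℕ) : FreeGroup Bool →* Isom3 :=
  FreeGroup.lift fun c : Bool => if c then aI ^ C else bI ^ C

lemma ph_wd (C : ℕ) (l : List (ℤ × ℤ)) :
    ph C (wd (FreeGroup.of true) (FreeGroup.of false) l) = wd aI bI (scale C l) := by
  rw [← wd_scale]
  induction l with
  | nil => exact map_one _
  | cons q l ih =>
    rw [wd_cons, wd_cons, map_mul, map_mul, map_zpow, map_zpow, ih]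
    simp [ph]

lemma scale_ne {C : ℕ} {l : List (ℤ × ℤ)} (hl : l ≠ []) : scale C l ≠ [] := by
  unfold scale
  simpa using hl

lemma scale_nonzero {C : ℕ} (hC : 1 ≤ C) {l : List (ℤ × ℤ)} (h : ∀ q ∈ l, q.1 ≠ 0 ∧ q.2 ≠ 0) :
    ∀ q ∈ scale C l, q.1 ≠ 0 ∧ q.2 ≠ 0 := by
  intro q hq
  unfold scale at hq
  rw [List.mem_map] at hq
  obtain ⟨r, hr, rfl⟩ := hq
  have hC0 : (C : ℤ) ≠ 0 := by exact_mod_cast (by omega : C ≠ 0)
  exact ⟨mul_ne_zero hC0 (h r hr).1, mul_ne_zero hC0 (h r hr).2⟩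

lemma scale_ge {C : ℕ} {l : List (ℤ × ℤ)} (h : ∀ q ∈ l, q.1 ≠ 0 ∧ q.2 ≠ 0) :
    ∀ q ∈ scale C l, (C : ℤ) ≤ |q.1| ∧ (C : ℤ) ≤ |q.2| := by
  intro q hq
  unfold scale at hq
  rw [List.mem_map] at hq
  obtain ⟨r, hr, rfl⟩ := hq
  have h1 := Int.one_le_abs (h r hr).1
  have h2 := Int.one_le_abs (h r hr).2
  have hC0 : (0 : ℤ) ≤ C := by positivity
  constructor
  · simp only [abs_mul, abs_of_nonneg hC0]
    nlinarith
  · simp only [abs_mul, abs_of_nonneg hC0]
    nlinarith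

/-- The elements of the free group: trivial, or conjugate to a power of a generator, whose image has
no fixed point, or conjugate to an alternating product. -/
lemma cases_wd {C : ℕ} (hC : 1 ≤ C) (k : List (ℤ × ℤ))
    (hw : wd (FreeGroup.of true) (FreeGroup.of false) k ≠ 1) :
    (∀ z : Fin 3 → ℚ, (ph C (wd (FreeGroup.of true) (FreeGroup.of false) k) :
      Equiv.Perm (Fin 3 → ℚ)) z ≠ z) ∨
    ∃ g l, l ≠ [] ∧ l.length ≤ k.length ∧ (∀ q ∈ l, q.1 ≠ 0 ∧ q.2 ≠ 0) ∧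
      wd (FreeGroup.of true) (FreeGroup.of false) k =
        g * wd (FreeGroup.of true) (FreeGroup.of false) l * g⁻¹ := by
  obtain ⟨g, x, hx, e⟩ := conj_NF (FreeGroup.of true) (FreeGroup.of false) k.length k rfl
  have hC0 : (C : ℤ) ≠ 0 := by exact_mod_cast (by omega : C ≠ 0)
  have conj_fix : ∀ (y : FreeGroup Bool), (∀ z : Fin 3 → ℚ,
      (ph C y : Equiv.Perm (Fin 3 → ℚ)) z ≠ z) → ∀ z : Fin 3 → ℚ,
      (ph C (g * y * g⁻¹) : Equiv.Perm (Fin 3 → ℚ)) z ≠ z := by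
    intro y hy z hz
    rw [map_mul, map_mul, map_inv] at hz
    apply hy ((ph C g : Equiv.Perm (Fin 3 → ℚ))⁻¹ z)
    apply (ph C g : Equiv.Perm (Fin 3 → ℚ)).injective
    have h4 : (ph C g : Equiv.Perm (Fin 3 → ℚ))
        ((ph C g : Equiv.Perm (Fin 3 → ℚ))⁻¹ z) = z :=
      (ph C g : Equiv.Perm (Fin 3 → ℚ)).apply_symm_apply z
    rw [h4]
    exact hz
  rcases hx with rfl | ⟨m, hm, rfl⟩ | ⟨m, hm, rfl⟩ | ⟨l', h1, h1', h2, rfl⟩
  · exfalso
    apply hw
    rw [e]
    group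
  · left
    rw [e]
    apply conj_fix
    intro z hz
    have h1 : (ph C (FreeGroup.of true ^ m) : Equiv.Perm (Fin 3 → ℚ)) = aP ^ ((C : ℤ) * m) := by
      rw [map_zpow, zpow_mul, zpow_natCast]
      simp [ph, aI]
    rw [h1] at hz
    exact aP_zpow_ne (mul_ne_zero hC0 hm) z hz
  · left
    rw [e]
    apply conj_fix
    intro z hz
    have h1 : (ph C (FreeGroup.of false ^ m) : Equiv.Perm (Fin 3 → ℚ)) = bP ^ ((C : ℤ) * m) := by
      rw [map_zpow, zpow_mul, zpow_natCast]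
      simp [ph, bI]
    rw [h1] at hz
    exact bP_zpow_ne (mul_ne_zero hC0 hm) z hz
  · exact Or.inr ⟨g, l', h1, h1', h2, e⟩

lemma cases_w {C : ℕ} (hC : 1 ≤ C) (w : FreeGroup Bool) (hw : w ≠ 1) :
    (∀ z : Fin 3 → ℚ, (ph C w : Equiv.Perm (Fin 3 → ℚ)) z ≠ z) ∨
    ∃ g l, l ≠ [] ∧ (∀ q ∈ l, q.1 ≠ 0 ∧ q.2 ≠ 0) ∧
      w = g * wd (FreeGroup.of true) (FreeGroup.of false) l * g⁻¹ := by
  obtain ⟨k, rfl⟩ := exists_wd w
  rcases cases_wd hC k hw with h | ⟨g, l, h1, -, h2, e⟩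
  · exact Or.inl h
  · exact Or.inr ⟨g, l, h1, h2, e⟩

theorem ph_injective {C : ℕ} (hC : 1 ≤ C) : Function.Injective (ph C) := by
  rw [injective_iff_map_eq_one]
  intro w hw
  by_contra hne
  rcases cases_w hC w hne with h | ⟨g, l, h1, h2, e⟩
  · apply h 0
    rw [hw]
    rfl
  · rw [e, map_mul, map_mul, map_inv, mul_inv_eq_one, mul_eq_left, ph_wd] at hw
    have h3 : ((wd aI bI (scale C l) : Isom3) : Equiv.Perm (Fin 3 → ℚ)) = 1 := by
      rw [hw]
      rfl
    rw [coe_wd] at h3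
    exact wd_ne_one (scale_ne h1) (scale_nonzero hC h2) h3

/-- The number of short exponents after scaling. -/
lemma short_scale {C : ℕ} (hC : 1 ≤ C) {l : List (ℤ × ℤ)} (hl : l ≠ [])
    (h : ∀ q ∈ l, q.1 ≠ 0 ∧ q.2 ≠ 0) : short C (scale C l) ≤ short (2 * C + 1) l := by
  unfold short
  rw [lens_scale, List.countP_map]
  refine List.countP_mono_left fun m hm h1 => ?_
  simp only [Function.comp_apply, decide_eq_true_eq] at h1 ⊢
  have hn : 2 ≤ (lens l).sum := by
    obtain ⟨q, t, rfl⟩ := List.exists_cons_of_ne_nil hl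
    have h2 := h q (by simp)
    have h3 := Int.natAbs_pos.2 h2.1
    have h4 := Int.natAbs_pos.2 h2.2
    have h5 : lens (q :: t) = q.1.natAbs :: q.2.natAbs :: lens t := rfl
    rw [h5, List.sum_cons, List.sum_cons]
    omega
  have hsum : ((lens l).map (C * ·)).sum = C * (lens l).sum := by
    rw [List.sum_map_mul_left, List.map_id']
  rw [hsum] at h1
  generalize (lens l).sum = n at hn h1 ⊢
  have hn' : (2 : ℝ) ≤ n := by exact_mod_cast hn
  have hC' : (1 : ℝ) ≤ C := by exact_mod_cast hC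
  rw [Nat.cast_mul, Nat.cast_mul, Real.log_mul (by positivity) (by positivity)] at h1
  have h2 : (m : ℝ) < Real.log C + Real.log n := lt_of_mul_lt_mul_left h1 (by positivity)
  have h3 : Real.log C ≤ C := (Real.log_le_sub_one_of_pos (by positivity)).trans (by linarith)
  have h4 : (1 : ℝ) / 2 ≤ Real.log n := by
    have h5 := Real.log_two_gt_d9
    have h6 : Real.log 2 ≤ Real.log n := Real.log_le_log (by norm_num) hn'
    linarith
  push_cast
  nlinarith

lemma short_le (C : ℕ) (l : List (ℤ × ℤ)) : short C l ≤ 2 * l.length := by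
  have h : (lens l).length = 2 * l.length := by
    unfold lens
    induction l with
    | nil => rfl
    | cons q l ih =>
      simp only [List.flatMap_cons, List.length_append, List.length_cons, List.length_nil, ih]
      omega
  rw [← h]
  exact List.countP_le_length

theorem main2 (K : ℕ) : ∃ (φ : FreeGroup Bool →* Isom3) (C : ℕ), Function.Injective φ ∧
    (∀ w : FreeGroup Bool, w ≠ 1 → (∃ z : Fin 3 → ℚ, (φ w : Equiv.Perm (Fin 3 → ℚ)) z = z) →
      ∃ g l, l ≠ [] ∧ (∀ q ∈ l, q.1 ≠ 0 ∧ q.2 ≠ 0) ∧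
        w = g * wd (FreeGroup.of true) (FreeGroup.of false) l * g⁻¹ ∧ K < short C l) ∧
    ∀ l : List (ℤ × ℤ), 2 * l.length ≤ K → wd (FreeGroup.of true) (FreeGroup.of false) l ≠ 1 →
      ∀ z : Fin 3 → ℚ, (φ (wd (FreeGroup.of true) (FreeGroup.of false) l) :
        Equiv.Perm (Fin 3 → ℚ)) z ≠ z := by
  obtain ⟨C, hC1, hC⟩ := few_short K
  have key : ∀ (g : FreeGroup Bool) (l : List (ℤ × ℤ)), l ≠ [] → (∀ q ∈ l, q.1 ≠ 0 ∧ q.2 ≠ 0) →
      short (2 * C + 1) l ≤ K → ∀ z : Fin 3 → ℚ,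
      (ph C (g * wd (FreeGroup.of true) (FreeGroup.of false) l * g⁻¹) :
        Equiv.Perm (Fin 3 → ℚ)) z ≠ z := by
    intro g l h1 h2 hcon z hz
    refine hC (scale C l) (scale_ne h1) (scale_ge h2)
      ((short_scale hC1 h1 h2).trans hcon) ((ph C g : Equiv.Perm (Fin 3 → ℚ))⁻¹ z) ?_
    rw [← coe_wd, ← ph_wd]
    apply (ph C g : Equiv.Perm (Fin 3 → ℚ)).injective
    have h4 : (ph C g : Equiv.Perm (Fin 3 → ℚ))
        ((ph C g : Equiv.Perm (Fin 3 → ℚ))⁻¹ z) = z :=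
      (ph C g : Equiv.Perm (Fin 3 → ℚ)).apply_symm_apply z
    rw [h4]
    rw [map_mul, map_mul, map_inv] at hz
    exact hz
  refine ⟨ph C, 2 * C + 1, ph_injective hC1, fun w hw hz => ?_, fun k hk hw z hz => ?_⟩
  · obtain ⟨z, hz⟩ := hz
    rcases cases_w hC1 w hw with h | ⟨g, l, h1, h2, e⟩
    · exact absurd hz (h z)
    · refine ⟨g, l, h1, h2, e, ?_⟩
      by_contra hcon
      push Not at hcon
      rw [e] at hz
      exact key g l h1 h2 hcon z hz
  · rcases cases_wd hC1 k hw with h | ⟨g, l, h1, h1', h2, e⟩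
    · exact h z hz
    · rw [e] at hz
      have := short_le (2 * C + 1) l
      exact key g l h1 h2 (by omega) z hz

theorem ph_one : ph 1 = FreeGroup.lift fun c : Bool => if c then aI else bI := by
  unfold ph
  simp only [pow_one]

end Pool.Agent.FSS
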