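import Pool.Agent.FSS.Iso
import Pool.Agent.FSS.Comb

/-!
# Freeness and the decomposition of the elements of a free group
-/

set_option autoImplicit false

open scoped DualNumber
open TrivSqZeroExt

noncomputable section

namespace Pool.Agent.FSS

lemma p5_coprime : IsCoprime p5 (star p5) :=
  ⟨⟨2, 1⟩, ⟨0, -2⟩, by ext <;> simp [p5]⟩

lemma p5_norm : p5.norm = (5 : ℕ) := by
  simp [p5, Zsqrtd.norm]

lemma star_p5_not_unit : ¬ IsUnit (star p5) := by
  intro h
  have h1 := (Zsqrtd.norm_eq_one_iff (x := star p5)).2 h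
  rw [Zsqrtd.norm_conj, p5_norm] at h1
  norm_num at h1

/-- Matrices commuting with all pure quaternions. -/
lemma scalar_of_comm {P : Matrix (Fin 2) (Fin 2) ℂ} (h : ∀ z, pq z * P = P * pq z) :
    P 0 0 = P 1 1 ∧ P 0 1 = 0 ∧ P 1 0 = 0 := by
  have h1 := h ![1, 0, 0]
  have h2 := h ![0, 1, 0]
  have a01 := congrFun (congrFun h1 0) 1
  have a10 := congrFun (congrFun h1 1) 0
  have b01 := congrFun (congrFun h2 0) 1
  simp [pq, Matrix.mul_apply, Fin.sum_univ_two] at a01 a10 b01
  have hI : Complex.I ≠ 0 := Complex.I_ne_zero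
  refine ⟨?_, ?_, ?_⟩
  · have : Complex.I * (P 0 0 - P 1 1) = 0 := by linear_combination -b01
    rcases mul_eq_zero.1 this with h | h
    · exact absurd h hI
    · exact sub_eq_zero.1 h
  · have : Complex.I * (2 * P 0 1) = 0 := by linear_combination a01
    rcases mul_eq_zero.1 this with h | h
    · exact absurd h hI
    · simpa using h
  · have : Complex.I * (2 * P 1 0) = 0 := by linear_combination -a10
    rcases mul_eq_zero.1 this with h | h
    · exact absurd h hI
    · simpa using h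

lemma fst_det_MM (s : List ℤ) :
    (MM s).det.fst = 5 ^ (s.map Int.natAbs).sum * (-2) ^ s.length := by
  induction s with
  | nil => simp [MM]
  | cons x s ih =>
    have h1 : MM (x :: s) = DD x * HH * MM s := by simp [MM]
    rw [h1, Matrix.det_mul, Matrix.det_mul, fst_mul, fst_mul, ih]
    have h2 : (HH.det).fst = -2 := by
      have : HH.det = -2 := by
        rw [HH, Matrix.det_fin_two_of]
        ring
      rw [this, fst_neg, fst_two]
    have h5 : p5 * star p5 = 5 := by
      have := Zsqrtd.norm_eq_mul_conj p5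
      rw [p5_norm] at this
      rw [← this]
      norm_num
    have h3 : (DD x).det.fst = 5 ^ x.natAbs := by
      unfold DD
      split_ifs with h
      · rw [Matrix.det_fin_two_of, mul_zero, sub_zero, fst_mul, fst_XX_pow, fst_YY_pow, ← mul_pow,
          h5]
      · rw [Matrix.det_fin_two_of, mul_zero, sub_zero, fst_mul, fst_XX_pow, fst_YY_pow, ← mul_pow,
          mul_comm (star p5), h5]
    rw [h2, h3, List.map_cons, List.sum_cons, List.length_cons, pow_add, pow_succ]
    ring

lemma flat_length (l : List (ℤ × ℤ)) (hl : l ≠ []) : flat l ≠ [] := by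
  obtain ⟨q, t, rfl⟩ := List.exists_cons_of_ne_nil hl
  simp [flat]

lemma mem_flat {l : List (ℤ × ℤ)} {x : ℤ} :
    x ∈ flat l ↔ ∃ q ∈ l, x = q.1 ∨ x = q.2 := by
  simp [flat, List.mem_flatMap]

/-- An alternating product is not the identity. -/
theorem wd_ne_one {l : List (ℤ × ℤ)} (hl : l ≠ []) (h0 : ∀ q ∈ l, q.1 ≠ 0 ∧ q.2 ≠ 0) :
    wd aP bP l ≠ 1 := by
  intro h1
  set s := flat l with hs
  have hsne : s ≠ [] := flat_length l hl
  have hpos : ∀ m ∈ s.map Int.natAbs, 1 ≤ m := by
    intro m hm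
    rw [List.mem_map] at hm
    obtain ⟨x, hx, rfl⟩ := hm
    rw [hs, mem_flat] at hx
    obtain ⟨q, hq, hx⟩ := hx
    have := h0 q hq
    rcases hx with rfl | rfl
    · exact Int.natAbs_pos.2 this.1
    · exact Int.natAbs_pos.2 this.2
  have hrep := rep_wd l
  rw [h1] at hrep
  have hz : ∀ z, pq z * FP (MM s) = FP (MM s) * pq z + SP (MM s) := fun z => hrep z
  have hS : SP (MM s) = 0 := by
    have h2 := hz 0
    have h3 : pq 0 = 0 := by
      ext i j
      fin_cases i <;> fin_cases j <;> simp [pq]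
    rw [h3, zero_mul, mul_zero, zero_add] at h2
    exact h2.symm
  have hcomm : ∀ z, pq z * FP (MM s) = FP (MM s) * pq z := by
    intro z
    rw [hz, hS, add_zero]
  obtain ⟨c1, c2, c3⟩ := scalar_of_comm hcomm
  have d1 : (MM s 0 0).fst = (MM s 1 1).fst := GaussianInt.toComplex_inj.1 c1
  have d2 : (MM s 0 1).fst = 0 := GaussianInt.toComplex_eq_zero.1 c2
  have hdet : (MM s).det.fst = (MM s 0 0).fst ^ 2 := by
    rw [Matrix.det_fin_two, fst_sub, fst_mul, fst_mul, d2, ← d1]
    ring
  rw [fst_det_MM] at hdet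
  have htr : (MM s).trace.fst = 2 * (MM s 0 0).fst := by
    rw [Matrix.trace_fin_two, fst_add, ← d1]
    ring
  obtain ⟨v, z, hv, e⟩ := (cls_trace hsne).freeze 1
  have f1 : (s.map Int.natAbs).filter (· < 1) = [] := by
    rw [List.filter_eq_nil_iff]
    intro a ha
    have := hpos a ha
    simp only [decide_eq_true_eq]
    omega
  have f2 : (s.map Int.natAbs).filter (1 ≤ ·) = s.map Int.natAbs := by
    rw [List.filter_eq_self]
    intro a ha
    simpa using hpos a ha
  rw [f1] at hv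
  rw [f2] at e
  have hv' : v.fst = 1 ∨ v.fst = -1 := by
    cases hv with
    | pos => simp
    | neg => simp
  set n := (s.map Int.natAbs).sum with hn
  have hnpos : 1 ≤ n := by
    obtain ⟨x, t, hxt⟩ := List.exists_cons_of_ne_nil hsne
    have h2 := hpos x.natAbs (by rw [hxt]; simp)
    rw [hn, hxt, List.map_cons, List.sum_cons]
    omega
  have h2 : (MM s).trace.fst = p5 ^ n * v.fst + star p5 * z.fst := by
    rw [e, fst_add, fst_mul, fst_mul, fst_XX_pow, fst_inl, pow_one]
  have h5 : p5 * star p5 = 5 := by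
    have := Zsqrtd.norm_eq_mul_conj p5
    rw [p5_norm] at this
    rw [← this]
    norm_num
  have h3 : star p5 ∣ (MM s 0 0).fst ^ 2 := by
    rw [← hdet]
    refine Dvd.dvd.mul_right ?_ _
    refine dvd_pow ?_ (by omega)
    exact ⟨p5, by rw [mul_comm, h5]⟩
  have h4 : star p5 ∣ (p5 ^ n) ^ 2 := by
    have h6 : (p5 ^ n) ^ 2 = 4 * (MM s 0 0).fst ^ 2 +
        star p5 * (-(z.fst * (2 * (2 * (MM s 0 0).fst) - star p5 * z.fst))) := by
      have h7 : p5 ^ n * v.fst = 2 * (MM s 0 0).fst - star p5 * z.fst := by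
        rw [← htr, h2]
        ring
      have h8 : v.fst ^ 2 = 1 := by
        rcases hv' with h | h <;> rw [h] <;> ring
      have h9 : (p5 ^ n) ^ 2 = (p5 ^ n * v.fst) ^ 2 := by
        rw [mul_pow, h8, mul_one]
      rw [h9, h7]
      ring
    rw [h6]
    exact dvd_add (Dvd.dvd.mul_left h3 _) (Dvd.intro _ rfl)
  have h6 : IsCoprime (star p5) ((p5 ^ n) ^ 2) := (p5_coprime.symm.pow_right).pow_right
  exact star_p5_not_unit (h6.isUnit_of_dvd h4)

lemma aP_pow_apply (n : ℕ) (z : Fin 3 → ℚ) : (aP ^ n) z 0 = z 0 + n := by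
  induction n generalizing z with
  | zero => simp
  | succ n ih =>
    rw [pow_succ, Equiv.Perm.mul_apply, ih, aP_apply]
    simp
    ring

lemma bP_pow_apply (n : ℕ) (z : Fin 3 → ℚ) : (bP ^ n) z 1 = z 1 + n := by
  induction n generalizing z with
  | zero => simp
  | succ n ih =>
    rw [pow_succ, Equiv.Perm.mul_apply, ih, bP_apply]
    simp
    ring

lemma aP_zpow_ne {m : ℤ} (hm : m ≠ 0) (z : Fin 3 → ℚ) : (aP ^ m) z ≠ z := by
  have key : ∀ n : ℕ, n ≠ 0 → ∀ z, (aP ^ n) z ≠ z := by
    intro n hn z h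
    have h1 := aP_pow_apply n z
    rw [h] at h1
    have h2 : (n : ℚ) = 0 := by linarith
    exact hn (by exact_mod_cast h2)
  intro h
  rcases le_or_gt 0 m with h1 | h1
  · obtain ⟨n, rfl⟩ := Int.eq_ofNat_of_zero_le h1
    rw [zpow_natCast] at h
    exact key n (by simpa using hm) z h
  · obtain ⟨n, rfl⟩ : ∃ n : ℕ, m = -n := ⟨m.natAbs, by omega⟩
    rw [zpow_neg, zpow_natCast, Equiv.Perm.inv_eq_iff_eq] at h
    exact key n (by omega) z h.symm

lemma bP_zpow_ne {m : ℤ} (hm : m ≠ 0) (z : Fin 3 → ℚ) : (bP ^ m) z ≠ z := by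
  have key : ∀ n : ℕ, n ≠ 0 → ∀ z, (bP ^ n) z ≠ z := by
    intro n hn z h
    have h1 := bP_pow_apply n z
    rw [h] at h1
    have h2 : (n : ℚ) = 0 := by linarith
    exact hn (by exact_mod_cast h2)
  intro h
  rcases le_or_gt 0 m with h1 | h1
  · obtain ⟨n, rfl⟩ := Int.eq_ofNat_of_zero_le h1
    rw [zpow_natCast] at h
    exact key n (by simpa using hm) z h
  · obtain ⟨n, rfl⟩ : ∃ n : ℕ, m = -n := ⟨m.natAbs, by omega⟩
    rw [zpow_neg, zpow_natCast, Equiv.Perm.inv_eq_iff_eq] at h
    exact key n (by omega) z h.symm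

/-! ## Decomposition up to conjugation -/

section Dec

variable {G : Type} [Group G]

lemma wd_nil (a b : G) : wd a b [] = 1 := rfl

lemma wd_cons (a b : G) (q : ℤ × ℤ) (l : List (ℤ × ℤ)) :
    wd a b (q :: l) = a ^ q.1 * b ^ q.2 * wd a b l := by simp [wd]

lemma wd_append (a b : G) (l l' : List (ℤ × ℤ)) :
    wd a b (l ++ l') = wd a b l * wd a b l' := by simp [wd]

/-- The normal forms. -/
def NF (a b : G) (n : ℕ) (x : G) : Prop :=
  x = 1 ∨ (∃ m : ℤ, m ≠ 0 ∧ x = a ^ m) ∨ (∃ m : ℤ, m ≠ 0 ∧ x = b ^ m) ∨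
    ∃ l : List (ℤ × ℤ), l ≠ [] ∧ l.length ≤ n ∧ (∀ q ∈ l, q.1 ≠ 0 ∧ q.2 ≠ 0) ∧ x = wd a b l

lemma NF.mono {a b x : G} {n m : ℕ} (h : NF a b n x) (hnm : n ≤ m) : NF a b m x := by
  rcases h with h | h | h | ⟨l, h1, h2, h3, h4⟩
  · exact Or.inl h
  · exact Or.inr (Or.inl h)
  · exact Or.inr (Or.inr (Or.inl h))
  · exact Or.inr (Or.inr (Or.inr ⟨l, h1, h2.trans hnm, h3, h4⟩))

lemma conj_NF (a b : G) : ∀ (n : ℕ) (l : List (ℤ × ℤ)), l.length = n →
    ∃ g x, NF a b n x ∧ wd a b l = g * x * g⁻¹ := by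
  intro n
  induction n using Nat.strong_induction_on with
  | _ n ih =>
    intro l hln
    by_cases hl : l = []
    · exact ⟨1, 1, Or.inl rfl, by rw [hl, wd_nil]; simp⟩
    by_cases hz : ∀ q ∈ l, q.1 ≠ 0 ∧ q.2 ≠ 0
    · exact ⟨1, wd a b l, Or.inr (Or.inr (Or.inr ⟨l, hl, hln.le, hz, rfl⟩)), by simp⟩
    · push Not at hz
      obtain ⟨q, hq, hq0⟩ := hz
      obtain ⟨l1, l2, rfl⟩ := List.append_of_mem hq
      have hrot : wd a b (l1 ++ q :: l2) = wd a b l1 * (a ^ q.1 * b ^ q.2 * wd a b (l2 ++ l1)) *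
          (wd a b l1)⁻¹ := by
        rw [wd_append, wd_cons, wd_append]
        group
      have hlen : (l2 ++ l1).length + 1 = n := by
        rw [← hln]
        simp
        omega
      rcases List.eq_nil_or_concat (l2 ++ l1) with hr | ⟨r, t, hr⟩
      · -- one pair
        rw [hr, wd_nil, mul_one] at hrot
        refine ⟨wd a b l1, a ^ q.1 * b ^ q.2, ?_, hrot⟩
        by_cases h1 : q.1 = 0
        · by_cases h2 : q.2 = 0
          · exact Or.inl (by rw [h1, h2]; simp)
          · exact Or.inr (Or.inr (Or.inl ⟨q.2, h2, by rw [h1]; simp⟩))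
        · have h2 : q.2 = 0 := hq0 h1
          exact Or.inr (Or.inl ⟨q.1, h1, by rw [h2]; simp⟩)
      · by_cases h1 : q.1 = 0
        · -- absorb `b ^ q.2` at the end
          have h2 : wd a b (r.concat (t.1, t.2 + q.2)) = wd a b (r.concat t) * b ^ q.2 := by
            rw [List.concat_eq_append, List.concat_eq_append, wd_append, wd_append, wd_cons,
              wd_cons, wd_nil, mul_one, mul_one, zpow_add]
            simp only [mul_assoc]
          obtain ⟨g, x, hx, e⟩ := ih (n - 1) (by omega) (r.concat (t.1, t.2 + q.2)) (by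
            have : (r.concat t).length + 1 = n := by rw [← hr]; exact hlen
            simp only [List.length_concat] at this ⊢
            omega)
          refine ⟨wd a b l1 * b ^ q.2 * g, x, hx.mono (by omega), ?_⟩
          have h3 : wd a b (l2 ++ l1) = g * x * g⁻¹ * (b ^ q.2)⁻¹ := by
            rw [hr, ← e, h2, mul_inv_cancel_right]
          rw [hrot, h1, zpow_zero, one_mul, h3]
          group
        · have h2 : q.2 = 0 := hq0 h1
          obtain ⟨t', r', hr'⟩ : ∃ t' r', l2 ++ l1 = t' :: r' :=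
            List.exists_cons_of_ne_nil (by rw [hr]; simp)
          have h3 : wd a b ((q.1 + t'.1, t'.2) :: r') = a ^ q.1 * wd a b (t' :: r') := by
            rw [wd_cons, wd_cons, zpow_add]
            simp only [mul_assoc]
          obtain ⟨g, x, hx, e⟩ := ih (n - 1) (by omega) ((q.1 + t'.1, t'.2) :: r') (by
            rw [hr'] at hlen
            simp only [List.length_cons] at hlen ⊢
            omega)
          refine ⟨wd a b l1 * g, x, hx.mono (by omega), ?_⟩
          rw [hrot, h2, zpow_zero, mul_one, hr', ← h3, e]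
          group

end Dec

lemma exists_wd (w : FreeGroup Bool) :
    ∃ l, w = wd (FreeGroup.of true) (FreeGroup.of false) l := by
  induction w using FreeGroup.induction_on with
  | C1 => exact ⟨[], rfl⟩
  | of c =>
    cases c
    · exact ⟨[(0, 1)], by simp [wd]⟩
    · exact ⟨[(1, 0)], by simp [wd]⟩
  | inv_of c _ =>
    cases c
    · exact ⟨[(0, -1)], by simp [wd]⟩
    · exact ⟨[(-1, 0)], by simp [wd]⟩
  | mul x y hx hy =>
    obtain ⟨l, rfl⟩ := hx
    obtain ⟨l', rfl⟩ := hy
    exact ⟨l ++ l', by rw [wd_append]⟩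

end Pool.Agent.FSS
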