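import Pool.Agent.FSS.Step

/-!
# Two screw motions of `ℚ³` and their dual matrices
-/

set_option autoImplicit false

open scoped DualNumber
open TrivSqZeroExt

noncomputable section

namespace Pool.Agent.FSS

/-- The Euclidean distance on `ℚ³`. -/
def dist3 (z w : Fin 3 → ℚ) : ℝ := Real.sqrt (∑ i, ((z i - w i : ℚ) : ℝ) ^ 2)

/-- The isometry group of `ℚ³`: all the bijections of `ℚ³` preserving the Euclidean distance. -/
def Isom3 : Subgroup (Equiv.Perm (Fin 3 → ℚ)) where
  carrier := {g | ∀ z w, dist3 (g z) (g w) = dist3 z w}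
  mul_mem' := by
    intro g h hg hh z w
    rw [Equiv.Perm.mul_apply, Equiv.Perm.mul_apply, hg, hh]
  one_mem' := by
    intro z w
    rfl
  inv_mem' := by
    intro g hg z w
    have h := hg (g⁻¹ z) (g⁻¹ w)
    have h1 : ∀ u, g (g⁻¹ u) = u := fun u => g.apply_symm_apply u
    rw [h1, h1] at h
    exact h.symm

/-- The first screw motion as a permutation. -/
def aP : Equiv.Perm (Fin 3 → ℚ) where
  toFun z := ![z 0 + 1, (3 * z 1 - 4 * z 2) / 5, (4 * z 1 + 3 * z 2) / 5]
  invFun z := ![z 0 - 1, (3 * z 1 + 4 * z 2) / 5, (3 * z 2 - 4 * z 1) / 5]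
  left_inv z := by
    funext i
    fin_cases i <;> simp <;> ring
  right_inv z := by
    funext i
    fin_cases i <;> simp <;> ring

/-- The second screw motion as a permutation. -/
def bP : Equiv.Perm (Fin 3 → ℚ) where
  toFun z := ![(3 * z 0 + 4 * z 2) / 5, z 1 + 1, (3 * z 2 - 4 * z 0) / 5]
  invFun z := ![(3 * z 0 - 4 * z 2) / 5, z 1 - 1, (3 * z 2 + 4 * z 0) / 5]
  left_inv z := by
    funext i
    fin_cases i <;> simp <;> ring
  right_inv z := by
    funext i
    fin_cases i <;> simp <;> ring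

lemma aP_apply (z : Fin 3 → ℚ) :
    aP z = ![z 0 + 1, (3 * z 1 - 4 * z 2) / 5, (4 * z 1 + 3 * z 2) / 5] := rfl

lemma bP_apply (z : Fin 3 → ℚ) :
    bP z = ![(3 * z 0 + 4 * z 2) / 5, z 1 + 1, (3 * z 2 - 4 * z 0) / 5] := rfl

lemma aP_inv_apply (z : Fin 3 → ℚ) :
    aP⁻¹ z = ![z 0 - 1, (3 * z 1 + 4 * z 2) / 5, (3 * z 2 - 4 * z 1) / 5] := rfl

lemma bP_inv_apply (z : Fin 3 → ℚ) :
    bP⁻¹ z = ![(3 * z 0 - 4 * z 2) / 5, z 1 - 1, (3 * z 2 + 4 * z 0) / 5] := rfl

lemma aP_mem : aP ∈ Isom3 := by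
  intro z w
  unfold dist3
  congr 1
  have h : ∑ i, (aP z i - aP w i) ^ 2 = ∑ i, (z i - w i) ^ 2 := by
    rw [aP_apply, aP_apply, Fin.sum_univ_three, Fin.sum_univ_three]
    simp
    ring
  exact_mod_cast congrArg (fun q : ℚ => (q : ℝ)) h

lemma bP_mem : bP ∈ Isom3 := by
  intro z w
  unfold dist3
  congr 1
  have h : ∑ i, (bP z i - bP w i) ^ 2 = ∑ i, (z i - w i) ^ 2 := by
    rw [bP_apply, bP_apply, Fin.sum_univ_three, Fin.sum_univ_three]
    simp
    ring
  exact_mod_cast congrArg (fun q : ℚ => (q : ℝ)) h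

/-- The matrices. -/
abbrev Mat := Matrix (Fin 2) (Fin 2) (GaussianInt[ε])

/-- The finite part as a complex matrix. -/
def FP (M : Mat) : Matrix (Fin 2) (Fin 2) ℂ := M.map fun u => GaussianInt.toComplex u.fst

/-- The infinitesimal part as a complex matrix. -/
def SP (M : Mat) : Matrix (Fin 2) (Fin 2) ℂ := M.map fun u => GaussianInt.toComplex u.snd

/-- The pure quaternion of a vector as a complex matrix. -/
def pq (z : Fin 3 → ℚ) : Matrix (Fin 2) (Fin 2) ℂ :=
  !![(z 0 : ℂ) * Complex.I, (z 1 : ℂ) * Complex.I - (z 2 : ℂ);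
    (z 1 : ℂ) * Complex.I + (z 2 : ℂ), -((z 0 : ℂ) * Complex.I)]

lemma FP_mul (M M' : Mat) : FP (M * M') = FP M * FP M' := by
  ext i j
  simp [FP, Matrix.mul_apply, Fin.sum_univ_two]

lemma SP_mul (M M' : Mat) : SP (M * M') = FP M * SP M' + SP M * FP M' := by
  ext i j
  simp [FP, SP, Matrix.mul_apply, Fin.sum_univ_two]
  ring

/-- The matrix `M` represents the motion `g`. -/
def Rep (g : Equiv.Perm (Fin 3 → ℚ)) (M : Mat) : Prop :=
  ∀ z, pq (g z) * FP M = FP M * pq z + SP M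

lemma Rep.mul {g h : Equiv.Perm (Fin 3 → ℚ)} {M M' : Mat} (hg : Rep g M) (hh : Rep h M') :
    Rep (g * h) (M * M') := by
  intro z
  rw [Equiv.Perm.mul_apply, FP_mul, SP_mul, ← mul_assoc, hg, add_mul, mul_assoc, hh, mul_add,
    mul_assoc, add_assoc]

lemma Rep.one : Rep 1 1 := by
  intro z
  have h1 : FP 1 = 1 := by
    ext i j
    fin_cases i <;> fin_cases j <;> simp [FP]
  have h2 : SP 1 = 0 := by
    ext i j
    fin_cases i <;> fin_cases j <;> simp [SP]
  rw [h1, h2, mul_one, one_mul, add_zero]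
  rfl

lemma fst_two : (2 : GaussianInt[ε]).fst = 2 := by
  rw [show (2 : GaussianInt[ε]) = 1 + 1 by norm_num, fst_add, fst_one]
  norm_num

lemma snd_two : (2 : GaussianInt[ε]).snd = 0 := by
  rw [show (2 : GaussianInt[ε]) = 1 + 1 by norm_num, snd_add, snd_one, add_zero]

lemma toC_two : GaussianInt.toComplex 2 = 2 := map_ofNat GaussianInt.toComplex 2

lemma Rep.cancel {g : Equiv.Perm (Fin 3 → ℚ)} {M : Mat} (h : Rep g ((2 : GaussianInt[ε]) • M)) :
    Rep g M := by
  intro z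
  have h1 : FP ((2 : GaussianInt[ε]) • M) = (2 : ℂ) • FP M := by
    ext i j
    simp [FP, fst_two, toC_two]
  have h2 : SP ((2 : GaussianInt[ε]) • M) = (2 : ℂ) • SP M := by
    ext i j
    simp [SP, fst_two, snd_two, toC_two]
  have h3 := h z
  rw [h1, h2, Matrix.mul_smul, Matrix.smul_mul, ← smul_add] at h3
  exact smul_right_injective _ (two_ne_zero : (2 : ℂ) ≠ 0) h3

/-- `2 + i`. -/
def p5 : GaussianInt := ⟨2, 1⟩

/-- The matrix with two values. -/
def HH : Mat := !![1, 1; 1, -1]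

/-- The diagonal matrix of a power of the first motion. -/
def DD (x : ℤ) : Mat :=
  if 0 ≤ x then !![XX p5 ^ x.natAbs, 0; 0, YY p5 ^ x.natAbs]
  else !![YY p5 ^ x.natAbs, 0; 0, XX p5 ^ x.natAbs]

lemma rep_a : Rep aP !![XX p5, 0; 0, YY p5] := by
  intro z
  rw [aP_apply]
  ext i j
  fin_cases i <;> fin_cases j <;>
    simp [pq, FP, SP, Matrix.mul_apply, Fin.sum_univ_two, fst_XX, fst_YY, snd_XX, snd_YY, p5, io,
      GaussianInt.toComplex_def, Complex.ext_iff] <;> ring_nf <;> simp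

lemma rep_a' : Rep aP⁻¹ !![YY p5, 0; 0, XX p5] := by
  intro z
  rw [aP_inv_apply]
  ext i j
  fin_cases i <;> fin_cases j <;>
    simp [pq, FP, SP, Matrix.mul_apply, Fin.sum_univ_two, fst_XX, fst_YY, snd_XX, snd_YY, p5, io,
      GaussianInt.toComplex_def, Complex.ext_iff] <;> ring_nf <;> simp

lemma rep_b : Rep bP (HH * !![XX p5, 0; 0, YY p5] * HH) := by
  intro z
  rw [bP_apply]
  ext i j
  fin_cases i <;> fin_cases j <;>
    simp [HH, pq, FP, SP, Matrix.mul_apply, Fin.sum_univ_two, fst_XX, fst_YY, snd_XX, snd_YY, p5,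
      io, GaussianInt.toComplex_def, Complex.ext_iff] <;> ring_nf <;> simp

lemma rep_b' : Rep bP⁻¹ (HH * !![YY p5, 0; 0, XX p5] * HH) := by
  intro z
  rw [bP_inv_apply]
  ext i j
  fin_cases i <;> fin_cases j <;>
    simp [HH, pq, FP, SP, Matrix.mul_apply, Fin.sum_univ_two, fst_XX, fst_YY, snd_XX, snd_YY, p5,
      io, GaussianInt.toComplex_def, Complex.ext_iff] <;> ring_nf <;> simp

lemma HH_sq : HH * HH = (2 : GaussianInt[ε]) • (1 : Mat) := by
  apply Matrix.ext
  intro i j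
  fin_cases i <;> fin_cases j <;> simp [HH, Matrix.mul_apply, Fin.sum_univ_two] <;> norm_num

/-- Powers of a motion represented by a diagonal matrix. -/
lemma Rep.diag_pow {g : Equiv.Perm (Fin 3 → ℚ)} {u v : GaussianInt[ε]}
    (h : Rep g !![u, 0; 0, v]) (n : ℕ) : Rep (g ^ n) !![u ^ n, 0; 0, v ^ n] := by
  induction n with
  | zero =>
    rw [pow_zero, pow_zero, pow_zero, ← Matrix.one_fin_two]
    exact Rep.one
  | succ n ih =>
    have h1 := ih.mul h
    rw [Matrix.mul_fin_two] at h1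
    simp only [mul_zero, zero_mul, add_zero, zero_add] at h1
    rw [pow_succ, pow_succ, pow_succ]
    exact h1

/-- Powers of a motion represented by a conjugated diagonal matrix. -/
lemma Rep.conj_pow {g : Equiv.Perm (Fin 3 → ℚ)} {u v : GaussianInt[ε]}
    (h : Rep g (HH * !![u, 0; 0, v] * HH)) (n : ℕ) :
    Rep (g ^ n) (HH * !![u ^ n, 0; 0, v ^ n] * HH) := by
  induction n with
  | zero =>
    rw [pow_zero, pow_zero, pow_zero, ← Matrix.one_fin_two, mul_one, HH_sq]
    have h1 := Rep.one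
    intro z
    have h2 : FP ((2 : GaussianInt[ε]) • (1 : Mat)) = (2 : ℂ) • FP 1 := by
      ext i j
      fin_cases i <;> fin_cases j <;> simp [FP, fst_two, toC_two]
    have h3 : SP ((2 : GaussianInt[ε]) • (1 : Mat)) = (2 : ℂ) • SP 1 := by
      ext i j
      fin_cases i <;> fin_cases j <;> simp [SP, snd_two]
    rw [h2, h3, Matrix.mul_smul, Matrix.smul_mul, ← smul_add, h1 z]
  | succ n ih =>
    have h1 := ih.mul h
    have h2 : HH * !![u ^ n, 0; 0, v ^ n] * HH * (HH * !![u, 0; 0, v] * HH) =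
        (2 : GaussianInt[ε]) • (HH * !![u ^ (n + 1), 0; 0, v ^ (n + 1)] * HH) := by
      have h3 : HH * !![u ^ n, 0; 0, v ^ n] * HH * (HH * !![u, 0; 0, v] * HH) =
          HH * !![u ^ n, 0; 0, v ^ n] * (HH * HH) * !![u, 0; 0, v] * HH := by
        simp only [mul_assoc]
      rw [h3, HH_sq, Matrix.mul_smul, mul_one, Matrix.smul_mul, Matrix.smul_mul, mul_assoc HH,
        Matrix.mul_fin_two]
      simp only [mul_zero, zero_mul, add_zero, zero_add, ← pow_succ]
    rw [h2] at h1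
    rw [pow_succ]
    exact h1.cancel

lemma rep_a_zpow (x : ℤ) : Rep (aP ^ x) (DD x) := by
  unfold DD
  split_ifs with h
  · obtain ⟨n, rfl⟩ := Int.eq_ofNat_of_zero_le h
    rw [zpow_natCast, Int.natAbs_natCast]
    exact rep_a.diag_pow n
  · obtain ⟨n, rfl⟩ : ∃ n : ℕ, x = -n := ⟨x.natAbs, by omega⟩
    rw [zpow_neg, zpow_natCast, Int.natAbs_neg, Int.natAbs_natCast, ← inv_pow]
    exact rep_a'.diag_pow n

lemma rep_b_zpow (x : ℤ) : Rep (bP ^ x) (HH * DD x * HH) := by
  unfold DD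
  split_ifs with h
  · obtain ⟨n, rfl⟩ := Int.eq_ofNat_of_zero_le h
    rw [zpow_natCast, Int.natAbs_natCast]
    exact rep_b.conj_pow n
  · obtain ⟨n, rfl⟩ : ∃ n : ℕ, x = -n := ⟨x.natAbs, by omega⟩
    rw [zpow_neg, zpow_natCast, Int.natAbs_neg, Int.natAbs_natCast, ← inv_pow]
    exact rep_b'.conj_pow n

/-- The matrix of a list of exponents. -/
def MM (s : List ℤ) : Mat := (s.map fun x => DD x * HH).prod

/-- The list of the exponents of an alternating product. -/
def flat (l : List (ℤ × ℤ)) : List ℤ := l.flatMap fun q => [q.1, q.2]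

/-- The alternating product. -/
def wd {G : Type} [Group G] (a b : G) (l : List (ℤ × ℤ)) : G :=
  (l.map fun q => a ^ q.1 * b ^ q.2).prod

lemma rep_wd (l : List (ℤ × ℤ)) : Rep (wd aP bP l) (MM (flat l)) := by
  induction l with
  | nil => exact Rep.one
  | cons q l ih =>
    have h1 : wd aP bP (q :: l) = aP ^ q.1 * bP ^ q.2 * wd aP bP l := by
      simp [wd]
    have h2 : MM (flat (q :: l)) = DD q.1 * (HH * DD q.2 * HH) * MM (flat l) := by
      simp [MM, flat, mul_assoc]
    rw [h1, h2]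
    exact ((rep_a_zpow q.1).mul (rep_b_zpow q.2)).mul ih

lemma HH_entry (i j : Fin 2) : HH i j = 1 ∨ HH i j = -1 := by
  fin_cases i <;> fin_cases j <;> simp [HH]

lemma cls_sign {l : List ℕ} {u : GaussianInt[ε]} (h : Cls p5 l u) (i j : Fin 2) :
    Cls p5 l (HH i j * u) := by
  rcases HH_entry i j with e | e
  · rw [e, one_mul]
    exact h
  · rw [e, neg_one_mul]
    exact h.neg'

/-- The entries of the products. -/
lemma cls_entry (s : List ℤ) (i j : Fin 2) : Cls p5 (s.map Int.natAbs) ((HH * MM s) i j) := by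
  induction s generalizing i with
  | nil =>
    have h : (HH * MM []) i j = HH i j := by simp [MM]
    rw [h, List.map_nil]
    rcases HH_entry i j with e | e
    · rw [e]
      exact Cls.pos
    · rw [e]
      exact Cls.neg
  | cons x s ih =>
    have h1 : HH * MM (x :: s) = HH * (DD x * (HH * MM s)) := by
      simp [MM, mul_assoc]
    rw [h1, List.map_cons, Matrix.mul_apply, Fin.sum_univ_two]
    have h0 := cls_sign (ih 0) i 0
    have h2 := cls_sign (ih 1) i 1
    unfold DD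
    split_ifs with h
    · have e1 : HH i 0 * (!![XX p5 ^ x.natAbs, 0; 0, YY p5 ^ x.natAbs] * (HH * MM s)) 0 j +
          HH i 1 * (!![XX p5 ^ x.natAbs, 0; 0, YY p5 ^ x.natAbs] * (HH * MM s)) 1 j =
          XX p5 ^ x.natAbs * (HH i 0 * (HH * MM s) 0 j) +
            YY p5 ^ x.natAbs * (HH i 1 * (HH * MM s) 1 j) := by
        rw [Matrix.mul_apply (M := !![XX p5 ^ x.natAbs, 0; 0, YY p5 ^ x.natAbs]),
          Matrix.mul_apply (M := !![XX p5 ^ x.natAbs, 0; 0, YY p5 ^ x.natAbs]),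
          Fin.sum_univ_two, Fin.sum_univ_two]
        simp only [Matrix.of_apply, Matrix.cons_val', Matrix.cons_val_zero, Matrix.cons_val_one,
          Matrix.cons_val_fin_one, zero_mul, add_zero, zero_add]
        ring
      rw [e1]
      exact Cls.cons _ _ _ _ h0 h2
    · have e1 : HH i 0 * (!![YY p5 ^ x.natAbs, 0; 0, XX p5 ^ x.natAbs] * (HH * MM s)) 0 j +
          HH i 1 * (!![YY p5 ^ x.natAbs, 0; 0, XX p5 ^ x.natAbs] * (HH * MM s)) 1 j =
          YY p5 ^ x.natAbs * (HH i 0 * (HH * MM s) 0 j) +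
            XX p5 ^ x.natAbs * (HH i 1 * (HH * MM s) 1 j) := by
        rw [Matrix.mul_apply (M := !![YY p5 ^ x.natAbs, 0; 0, XX p5 ^ x.natAbs]),
          Matrix.mul_apply (M := !![YY p5 ^ x.natAbs, 0; 0, XX p5 ^ x.natAbs]),
          Fin.sum_univ_two, Fin.sum_univ_two]
        simp only [Matrix.of_apply, Matrix.cons_val', Matrix.cons_val_zero, Matrix.cons_val_one,
          Matrix.cons_val_fin_one, zero_mul, add_zero, zero_add]
        ring
      rw [e1]
      exact Cls.cons' h0 h2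

/-- The trace. -/
lemma cls_trace {s : List ℤ} (hs : s ≠ []) : Cls p5 (s.map Int.natAbs) (MM s).trace := by
  obtain ⟨x, t, rfl⟩ := List.exists_cons_of_ne_nil hs
  have h1 : MM (x :: t) = DD x * (HH * MM t) := by
    simp [MM, mul_assoc]
  rw [h1, List.map_cons, Matrix.trace_fin_two]
  have h0 := cls_entry t 0 0
  have h2 := cls_entry t 1 1
  unfold DD
  split_ifs with h
  · have e1 : (!![XX p5 ^ x.natAbs, 0; 0, YY p5 ^ x.natAbs] * (HH * MM t)) 0 0 +
        (!![XX p5 ^ x.natAbs, 0; 0, YY p5 ^ x.natAbs] * (HH * MM t)) 1 1 =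
        XX p5 ^ x.natAbs * (HH * MM t) 0 0 + YY p5 ^ x.natAbs * (HH * MM t) 1 1 := by
      rw [Matrix.mul_apply (M := !![XX p5 ^ x.natAbs, 0; 0, YY p5 ^ x.natAbs]),
        Matrix.mul_apply (M := !![XX p5 ^ x.natAbs, 0; 0, YY p5 ^ x.natAbs]),
        Fin.sum_univ_two, Fin.sum_univ_two]
      simp only [Matrix.of_apply, Matrix.cons_val', Matrix.cons_val_zero, Matrix.cons_val_one,
        Matrix.cons_val_fin_one, zero_mul, add_zero, zero_add]
    rw [e1]
    exact Cls.cons _ _ _ _ h0 h2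
  · have e1 : (!![YY p5 ^ x.natAbs, 0; 0, XX p5 ^ x.natAbs] * (HH * MM t)) 0 0 +
        (!![YY p5 ^ x.natAbs, 0; 0, XX p5 ^ x.natAbs] * (HH * MM t)) 1 1 =
        YY p5 ^ x.natAbs * (HH * MM t) 0 0 + XX p5 ^ x.natAbs * (HH * MM t) 1 1 := by
      rw [Matrix.mul_apply (M := !![YY p5 ^ x.natAbs, 0; 0, XX p5 ^ x.natAbs]),
        Matrix.mul_apply (M := !![YY p5 ^ x.natAbs, 0; 0, XX p5 ^ x.natAbs]),
        Fin.sum_univ_two, Fin.sum_univ_two]
      simp only [Matrix.of_apply, Matrix.cons_val', Matrix.cons_val_zero, Matrix.cons_val_one,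
        Matrix.cons_val_fin_one, zero_mul, add_zero, zero_add]
    rw [e1]
    exact Cls.cons' h0 h2

lemma trace_SP (M : Mat) : (SP M).trace = GaussianInt.toComplex M.trace.snd := by
  rw [Matrix.trace_fin_two, Matrix.trace_fin_two, snd_add, map_add]
  rfl

lemma trace_FP (M : Mat) : (FP M).trace = GaussianInt.toComplex M.trace.fst := by
  rw [Matrix.trace_fin_two, Matrix.trace_fin_two, fst_add, map_add]
  rfl

/-- A fixed point makes the infinitesimal part of the trace vanish. -/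
lemma Rep.snd_trace {g : Equiv.Perm (Fin 3 → ℚ)} {M : Mat} (h : Rep g M) {z : Fin 3 → ℚ}
    (hz : g z = z) : M.trace.snd = 0 := by
  have h1 := h z
  rw [hz] at h1
  have h2 : SP M = pq z * FP M - FP M * pq z := by
    rw [h1, add_sub_cancel_left]
  have h3 : (SP M).trace = 0 := by
    rw [h2, Matrix.trace_sub, Matrix.trace_mul_comm, sub_self]
  rw [trace_SP, GaussianInt.toComplex_eq_zero] at h3
  exact h3

/-- An alternating product with a fixed point gives a signed sum without infinitesimal part. -/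
theorem bad_of_fixed {l : List (ℤ × ℤ)} (hl : l ≠ []) {z : Fin 3 → ℚ}
    (hz : wd aP bP l z = z) : Bad p5 ((flat l).map Int.natAbs) := by
  have hs : flat l ≠ [] := by
    obtain ⟨q, t, rfl⟩ := List.exists_cons_of_ne_nil hl
    simp [flat]
  exact ⟨_, cls_trace hs, (rep_wd l).snd_trace hz⟩

end Pool.Agent.FSS
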