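import Pool.Agent.FSS.Arith

/-!
# The two arithmetic properties of `Bad`
-/

set_option autoImplicit false

open scoped DualNumber
open TrivSqZeroExt

noncomputable section

namespace Pool.Agent.FSS

/-- The complex absolute value of a Gaussian integer. -/
def ab (z : GaussianInt) : ℝ := ‖GaussianInt.toComplex z‖

lemma ab_nonneg (z : GaussianInt) : 0 ≤ ab z := _root_.norm_nonneg _

lemma ab_mul (z w : GaussianInt) : ab (z * w) = ab z * ab w := by
  unfold ab
  rw [map_mul, _root_.norm_mul]

lemma ab_add (z w : GaussianInt) : ab (z + w) ≤ ab z + ab w := by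
  unfold ab
  rw [map_add]
  exact norm_add_le _ _

lemma ab_neg (z : GaussianInt) : ab (-z) = ab z := by
  unfold ab
  rw [map_neg, _root_.norm_neg]

lemma ab_pow (z : GaussianInt) (m : ℕ) : ab (z ^ m) = ab z ^ m := by
  unfold ab
  rw [map_pow, norm_pow]

lemma ab_natCast (m : ℕ) : ab (m : GaussianInt) = m := by
  unfold ab
  rw [map_natCast, Complex.norm_natCast]

lemma ab_sq (z : GaussianInt) : ab z ^ 2 = (z.norm : ℝ) := by
  unfold ab
  rw [GaussianInt.intCast_real_norm, Complex.normSq_eq_norm_sq]

lemma ab_io : ab io = 1 := by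
  have h := ab_sq io
  have h1 : io.norm = 1 := by
    unfold io Zsqrtd.norm
    norm_num
  rw [h1] at h
  have h2 := ab_nonneg io
  have h3 : ab io ^ 2 = 1 := by rw [h]; norm_num
  nlinarith [h3]

lemma ab_star (z : GaussianInt) : ab (star z) = ab z := by
  have h := ab_sq z
  have h1 := ab_sq (star z)
  rw [Zsqrtd.norm_conj, ← h] at h1
  exact (sq_eq_sq₀ (ab_nonneg _) (ab_nonneg _)).1 h1

/-- The sizes of the two parts of a signed sum. -/
lemma Cls.size {p : GaussianInt} {l : List ℕ} {u : GaussianInt[ε]} (h : Cls p l u) :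
    ab u.fst ≤ 2 ^ l.length * ab p ^ l.sum ∧
      ab u.snd ≤ 2 ^ l.length * l.sum * ab p ^ l.sum := by
  have one : ab 1 = 1 := by
    have := ab_natCast 1
    simpa using this
  have zero : ab 0 = 0 := by
    have := ab_natCast 0
    simpa using this
  induction h with
  | pos => simp [one, zero]
  | neg => simp [one, zero, ab_neg]
  | cons m l u v _ _ hu hv =>
    obtain ⟨a1, a2⟩ := hu
    obtain ⟨b1, b2⟩ := hv
    have hp : 0 ≤ ab p := ab_nonneg p
    have hpm : 0 ≤ ab p ^ m := by positivity
    have hm : (0 : ℝ) ≤ m := by positivity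
    rw [List.length_cons, List.sum_cons, pow_succ, pow_add]
    constructor
    · rw [fst_add, fst_mul, fst_mul, fst_XX_pow, fst_YY_pow]
      refine (ab_add _ _).trans ?_
      rw [ab_mul, ab_mul, ab_pow, ab_pow, ab_star]
      have h1 := mul_le_mul_of_nonneg_left a1 hpm
      have h2 := mul_le_mul_of_nonneg_left b1 hpm
      nlinarith [h1, h2]
    · rw [snd_add, DualNumber.snd_mul, DualNumber.snd_mul, fst_XX_pow, fst_YY_pow, snd_XX_pow,
        snd_YY_pow]
      refine (ab_add _ _).trans ?_
      refine (add_le_add (ab_add _ _) (ab_add _ _)).trans ?_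
      simp only [ab_mul, ab_neg, ab_natCast, ab_io, ab_pow, ab_star, one_mul]
      have h1 := mul_le_mul_of_nonneg_left a2 hpm
      have h2 := mul_le_mul_of_nonneg_left b2 hpm
      have h3 := mul_le_mul_of_nonneg_left a1 (mul_nonneg hm hpm)
      have h4 := mul_le_mul_of_nonneg_left b1 (mul_nonneg hm hpm)
      rw [Nat.cast_add]
      nlinarith [h1, h2, h3, h4]

lemma star_dvd_star {z w : GaussianInt} (h : z ∣ w) : star z ∣ star w := by
  obtain ⟨t, rfl⟩ := h
  rw [star_mul']
  exact Dvd.intro _ rfl

/-- Divisibility of the sum of the exponents. -/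
theorem Bad.dvd {p : GaussianInt} {N : ℕ} (hN : p.norm = N) (hc : IsCoprime p (star p))
    {l : List ℕ} (hB : Bad p l) (M : ℕ) (hM : ∀ m ∈ l, M ≤ m) : N ^ M ∣ l.sum := by
  obtain ⟨u, hu, h0⟩ := hB
  obtain ⟨v, z, hv, e⟩ := hu.freeze M
  have f1 : l.filter (· < M) = [] := by
    rw [List.filter_eq_nil_iff]
    intro a ha
    have := hM a ha
    simpa using this
  have f2 : l.filter (M ≤ ·) = l := by
    rw [List.filter_eq_self]
    intro a ha
    simpa using hM a ha
  rw [f1] at hv
  rw [f2] at e
  have h1 : u.snd = p ^ l.sum * v.snd + (l.sum : GaussianInt) * (io * p ^ l.sum) * v.fst +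
      star p ^ M * z.snd := by
    rw [e, snd_add, DualNumber.snd_mul, DualNumber.snd_mul, fst_XX_pow, snd_XX_pow, fst_inl,
      snd_inl]
    ring
  have hv' : v.snd = 0 ∧ (v.fst = 1 ∨ v.fst = -1) := by
    cases hv with
    | pos => simp
    | neg => simp
  have h2 : star p ^ M ∣ p ^ l.sum * ((l.sum : GaussianInt) * io) := by
    rw [h0, hv'.1, mul_zero, zero_add] at h1
    rcases hv'.2 with h | h
    · rw [h] at h1
      exact ⟨-z.snd, by linear_combination -h1⟩
    · rw [h] at h1
      exact ⟨z.snd, by linear_combination h1⟩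
  have h3 : star p ^ M ∣ (l.sum : GaussianInt) := by
    have h4 : star p ^ M ∣ (l.sum : GaussianInt) * io :=
      (hc.symm.pow).dvd_of_dvd_mul_left h2
    have h5 : (l.sum : GaussianInt) = (l.sum : GaussianInt) * io * (-io) := by
      have := io_sq
      linear_combination (l.sum : GaussianInt) * this
    rw [h5]
    exact Dvd.dvd.mul_right h4 _
  have h4 : p ^ M ∣ (l.sum : GaussianInt) := by
    have := star_dvd_star h3
    rwa [star_pow, star_star, star_natCast] at this
  have h5 : p ^ M * star p ^ M ∣ (l.sum : GaussianInt) :=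
    (hc.pow).mul_dvd h4 h3
  rw [← mul_pow, ← Zsqrtd.norm_eq_mul_conj, hN] at h5
  generalize l.sum = n at h5 ⊢
  have h6 : (((N ^ M : ℕ) : ℤ) : GaussianInt) ∣ ((n : ℤ) : GaussianInt) := by
    push_cast
    push_cast at h5
    exact h5
  rw [Zsqrtd.intCast_dvd_intCast] at h6
  exact_mod_cast h6

/-- A signed sum without infinitesimal part gives one for the small exponents, taken twice. -/
theorem Bad.step {p : GaussianInt} {N : ℕ} (hN : p.norm = N) (hc : IsCoprime p (star p))
    {l : List ℕ} (hB : Bad p l) (M : ℕ)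
    (hlt : 4 ^ (l.filter (· < M)).length * l.sum ^ 2 * N ^ (l.filter (· < M)).sum < N ^ M) :
    Bad p (l.filter (· < M) ++ l.filter (· < M)) := by
  obtain ⟨u, hu, h0⟩ := hB
  obtain ⟨v, z, hv, e⟩ := hu.freeze M
  set T := l.filter (· < M) with hT
  set b := (l.filter (M ≤ ·)).sum with hb
  have hsum : T.sum + b = l.sum := by
    rw [hT, hb]
    clear hlt hv e hT hb hu
    induction l with
    | nil => simp
    | cons m l ih =>
      by_cases hm : m < M
      · rw [List.filter_cons_of_pos (by simpa using hm),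
          List.filter_cons_of_neg (by simpa using hm), List.sum_cons, List.sum_cons]
        omega
      · rw [List.filter_cons_of_neg (by simpa using hm),
          List.filter_cons_of_pos (by simpa using hm), List.sum_cons, List.sum_cons]
        omega
  have h1 : u.snd = p ^ b * v.snd + (b : GaussianInt) * (io * p ^ b) * v.fst +
      star p ^ M * z.snd := by
    rw [e, snd_add, DualNumber.snd_mul, DualNumber.snd_mul, fst_XX_pow, snd_XX_pow, fst_inl,
      snd_inl]
    ring
  set W := v.snd + (b : GaussianInt) * (io * v.fst) with hW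
  have h2 : star p ^ M ∣ W := by
    have h3 : star p ^ M ∣ p ^ b * W := by
      rw [h0] at h1
      refine ⟨-z.snd, ?_⟩
      rw [hW]
      linear_combination -h1
    exact (hc.symm.pow).dvd_of_dvd_mul_left h3
  have hp2 : ab p ^ 2 = N := by
    rw [ab_sq, hN]
    norm_cast
  have hW0 : W = 0 := by
    by_contra hne
    obtain ⟨t, ht⟩ := h2
    have ht0 : t ≠ 0 := by
      rintro rfl
      rw [mul_zero] at ht
      exact hne ht
    have hs := hv.size
    have h4 : ab W ≤ 2 ^ T.length * l.sum * ab p ^ T.sum := by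
      rw [hW]
      refine (ab_add _ _).trans ?_
      rw [ab_mul, ab_mul, ab_natCast, ab_io, one_mul]
      have h5 : (b : ℝ) * ab v.fst ≤ b * (2 ^ T.length * ab p ^ T.sum) :=
        mul_le_mul_of_nonneg_left hs.1 (by positivity)
      have h6 : ((l.sum : ℕ) : ℝ) = T.sum + b := by
        rw [← hsum]
        push_cast
        ring
      rw [h6]
      nlinarith [hs.2, h5]
    have h5 : ab W ^ 2 ≤ (4 : ℝ) ^ T.length * (l.sum : ℝ) ^ 2 * (N : ℝ) ^ T.sum := by
      have h6 := pow_le_pow_left₀ (ab_nonneg W) h4 2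
      refine h6.trans (le_of_eq ?_)
      rw [mul_pow, mul_pow, ← pow_mul, ← pow_mul, mul_comm T.length 2, mul_comm T.sum 2, pow_mul,
        pow_mul, hp2]
      norm_num
    have h6 : ((N : ℝ)) ^ M ≤ ab W ^ 2 := by
      rw [ht, ab_mul, ab_pow, ab_star, mul_pow, ← pow_mul, mul_comm M 2, pow_mul, hp2]
      have h7 : (1 : ℝ) ≤ ab t ^ 2 := by
        rw [ab_sq]
        have h8 : 0 < t.norm := GaussianInt.norm_pos.2 ht0
        exact_mod_cast h8
      have h8 : (0 : ℝ) ≤ (N : ℝ) ^ M := by positivity
      nlinarith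
    generalize l.sum = n at hlt h5
    have h7 : ((4 ^ T.length * n ^ 2 * N ^ T.sum : ℕ) : ℝ) < ((N ^ M : ℕ) : ℝ) := by
      exact_mod_cast hlt
    push_cast at h7
    linarith
  refine ⟨v * cj v, hv.mul hv.conj, ?_⟩
  rw [DualNumber.snd_mul, fst_cj, snd_cj]
  have h3 : v.snd = -((b : GaussianInt) * (io * v.fst)) := by
    rw [hW] at hW0
    linear_combination hW0
  rw [h3, star_neg, star_mul', star_mul', star_natCast, star_io]
  ring

end Pool.Agent.FSS
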